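import Mathlib

/-! # Moving a point of a connected open planar set by a compactly supported homeomorphism -/

set_option autoImplicit false

noncomputable section

namespace Pool.Agent.Q171.IR

open Set Filter Topology Metric
open scoped NNReal

/-- the bump -/
def bump (a : ℂ) (ρ : ℝ) (x : ℂ) : ℝ := max (1 - ‖x - a‖ / ρ) 0

theorem bump_sub_le {a : ℂ} {ρ : ℝ} (hρ : 0 < ρ) (x y : ℂ) :
    |bump a ρ x - bump a ρ y| ≤ ‖x - y‖ / ρ := by
  unfold bump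
  refine (abs_max_sub_max_le_abs (1 - ‖x - a‖ / ρ) (1 - ‖y - a‖ / ρ) 0).trans ?_
  have h1 : (1 - ‖x - a‖ / ρ) - (1 - ‖y - a‖ / ρ) = (‖y - a‖ - ‖x - a‖) / ρ := by ring
  rw [h1, abs_div, abs_of_pos hρ]
  gcongr
  have h2 := abs_norm_sub_norm_le (y - a) (x - a)
  have h3 : y - a - (x - a) = -(x - y) := by ring
  rw [h3, norm_neg] at h2
  exact h2

theorem small_move {a b : ℂ} {ρ : ℝ} (hρ : 0 < ρ) (hab : ‖b - a‖ < ρ) :
    ∃ h : ℂ ≃ₜ ℂ, h a = b ∧ ∀ x, ρ ≤ ‖x - a‖ → h x = x := by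
  set c : ℝ≥0 := ⟨‖b - a‖ / ρ, by positivity⟩ with hc
  have hc1 : c < 1 := by
    rw [← NNReal.coe_lt_coe]
    show ‖b - a‖ / ρ < 1
    rwa [div_lt_one hρ]
  set f : ℂ → ℂ := fun x => x + (bump a ρ x : ℂ) * (b - a) with hf
  have happ : ApproximatesLinearOn f ((ContinuousLinearEquiv.refl ℂ ℂ : ℂ ≃L[ℂ] ℂ) : ℂ →L[ℂ] ℂ)
      univ c := by
    intro x _ y _
    have h1 : f x - f y - ((ContinuousLinearEquiv.refl ℂ ℂ : ℂ ≃L[ℂ] ℂ) : ℂ →L[ℂ] ℂ) (x - y) =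
        ((bump a ρ x - bump a ρ y : ℝ) : ℂ) * (b - a) := by
      simp only [hf, ContinuousLinearEquiv.coe_refl, ContinuousLinearMap.coe_id', id]
      push_cast
      ring
    rw [h1, norm_mul, Complex.norm_real, Real.norm_eq_abs]
    have h2 := bump_sub_le (a := a) hρ x y
    calc |bump a ρ x - bump a ρ y| * ‖b - a‖ ≤ ‖x - y‖ / ρ * ‖b - a‖ := by gcongr
      _ = (c : ℝ) * ‖x - y‖ := by
        show _ = ‖b - a‖ / ρ * ‖x - y‖
        ring
  have hN : c < ‖((ContinuousLinearEquiv.refl ℂ ℂ).symm : ℂ →L[ℂ] ℂ)‖₊⁻¹ := by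
    have : ((ContinuousLinearEquiv.refl ℂ ℂ).symm : ℂ →L[ℂ] ℂ) = ContinuousLinearMap.id ℂ ℂ := rfl
    rw [this, ContinuousLinearMap.nnnorm_id, inv_one]
    exact hc1
  have hcoe : ∀ x, happ.toHomeomorph f (Or.inr hN) x = f x := fun x => rfl
  refine ⟨happ.toHomeomorph f (Or.inr hN), ?_, fun x hx => ?_⟩
  · rw [hcoe]
    simp [hf, bump]
  · rw [hcoe]
    have h1 : bump a ρ x = 0 := by
      unfold bump
      apply max_eq_right
      have : 1 ≤ ‖x - a‖ / ρ := (one_le_div hρ).2 hx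
      linarith
    simp [hf, h1]

/-- compactly supported homeomorphisms act transitively on connected open sets -/
theorem move {U : Set ℂ} (hU : IsOpen U) (hc : IsPreconnected U) {a b : ℂ} (ha : a ∈ U)
    (hb : b ∈ U) : ∃ h : ℂ ≃ₜ ℂ, h a = b ∧ ∃ K : Set ℂ, IsCompact K ∧ K ⊆ U ∧
      ∀ x, x ∉ K → h x = x := by
  refine hc.induction₂' (fun a b => ∃ h : ℂ ≃ₜ ℂ, h a = b ∧ ∃ K : Set ℂ, IsCompact K ∧ K ⊆ U ∧
      ∀ x, x ∉ K → h x = x) ?_ ?_ ha hb
  · intro x hx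
    obtain ⟨ρ, hρ, hρU⟩ := nhds_basis_closedBall.mem_iff.1 (hU.mem_nhds hx)
    have h1 : ∀ᶠ y in 𝓝[U] x, ‖y - x‖ < ρ := by
      refine mem_nhdsWithin_of_mem_nhds ?_
      filter_upwards [ball_mem_nhds x hρ] with y hy
      rwa [mem_ball, dist_eq_norm] at hy
    filter_upwards [h1] with y hy
    obtain ⟨h, hh1, hh2⟩ := small_move hρ hy
    have hK : ∀ z, z ∉ closedBall x ρ → h z = z := fun z hz => by
      apply hh2
      rw [mem_closedBall, dist_eq_norm, not_le] at hz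
      exact hz.le
    refine ⟨⟨h, hh1, closedBall x ρ, isCompact_closedBall _ _, hρU, hK⟩,
      ⟨h.symm, ?_, closedBall x ρ, isCompact_closedBall _ _, hρU, fun z hz => ?_⟩⟩
    · rw [← hh1, h.symm_apply_apply]
    · rw [h.symm_apply_eq, hK z hz]
  · rintro x y z hx hy hz ⟨h, h1, K, hK, hKU, hs⟩ ⟨h', h1', K', hK', hKU', hs'⟩
    refine ⟨h.trans h', ?_, K ∪ K', hK.union hK', union_subset hKU hKU', fun w hw => ?_⟩
    · rw [Homeomorph.trans_apply, h1, h1']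
    · rw [Homeomorph.trans_apply, hs w (fun hh => hw (Or.inl hh)),
        hs' w (fun hh => hw (Or.inr hh))]

end Pool.Agent.Q171.IR
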