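import Mathlib
import Pool.Agent.Q171.IR.Move

/-! # Pulling a sequence out of an end of a planar set -/

set_option autoImplicit false

noncomputable section

namespace Pool.Agent.Q171.IR

open Set Filter Topology Metric

/-- `V` is a connected open set missing `X` and touching it at `n`, and the `D k` form an end
which is met by both `X` and `V` -/
structure Finger (X V : Set ℂ) (n : ℂ) (D : ℕ → Set ℂ) : Prop where
  Vo : IsOpen V
  Vc : IsPreconnected V
  disj : ∀ x ∈ V, x ∉ X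
  nX : n ∈ X
  nV : n ∈ closure V
  Do : ∀ k, IsOpen (D k)
  Dc : ∀ k, IsPreconnected (D k)
  anti : Antitone D
  DX : ∀ k, (D k ∩ X).Nonempty
  DV : ∀ k, (D k ∩ V).Nonempty
  miss : ∀ x, x ∈ X ∨ x ∈ V ∨ x ∈ D 0 → ∃ m, ∃ N ∈ 𝓝 x, Disjoint N (D m)

/-- the data of one stage -/
structure St (V : Set ℂ) (n : ℂ) (D : ℕ → Set ℂ) where
  H : ℂ ≃ₜ ℂ
  m : ℕ
  fix : ∀ x ∈ D m, H x = x
  hn : H n = n
  nD : n ∉ D m
  hV : ∀ x ∈ V, H x ∈ V ∨ H x ∈ D 0

variable {X V : Set ℂ} {n : ℂ} {D : ℕ → Set ℂ}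

theorem Finger.compact_miss (F : Finger X V n D) {K : Set ℂ} (hK : IsCompact K)
    (hs : ∀ x ∈ K, x ∈ X ∨ x ∈ V ∨ x ∈ D 0) : ∃ m, Disjoint K (D m) := by
  refine hK.induction_on (p := fun s => ∃ m, Disjoint s (D m)) ⟨0, disjoint_bot_left⟩ ?_ ?_ ?_
  · rintro s t hst ⟨m, hm⟩
    exact ⟨m, hm.mono_left hst⟩
  · rintro s t ⟨m, hm⟩ ⟨m', hm'⟩
    refine ⟨max m m', disjoint_union_left.2 ⟨?_, ?_⟩⟩
    · exact hm.mono_right (F.anti (le_max_left _ _))
    · exact hm'.mono_right (F.anti (le_max_right _ _))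
  · intro x hx
    obtain ⟨m, N, hN, hd⟩ := F.miss x (hs x hx)
    exact ⟨N, mem_nhdsWithin_of_mem_nhds hN, m, hd⟩

theorem mem_of_supp {h : ℂ ≃ₜ ℂ} {K : Set ℂ} (hK : ∀ x, x ∉ K → h x = x) {z : ℂ} (hz : z ∈ K) :
    h z ∈ K := by
  by_contra h1
  have h2 := h.injective (hK _ h1)
  rw [h2] at h1
  exact h1 hz

theorem Finger.step (F : Finger X V n D) (s : St V n D) {ε : ℝ} (hε : 0 < ε) :
    ∃ (s' : St V n D) (x : ℂ), x ∈ X ∧ x ∈ D s.m ∧ x ∉ D s'.m ∧ s.m < s'.m ∧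
      dist (s'.H x) n < ε ∧ ∀ y ∈ X, y ∉ D s.m → s'.H y = s.H y := by
  obtain ⟨x, hxD, hxX⟩ := F.DX s.m
  obtain ⟨v, hvD, hvV⟩ := F.DV s.m
  obtain ⟨g, hgx, Kg, hKg, hKgD, hgs⟩ := move (F.Do s.m) (F.Dc s.m) hxD hvD
  set U : Set ℂ := s.H '' V with hU
  have hUo : IsOpen U := s.H.isOpenMap _ F.Vo
  have hUc : IsPreconnected U := F.Vc.image _ s.H.continuous.continuousOn
  have hvU : v ∈ U := ⟨v, hvV, s.fix v hvD⟩
  have hnU : n ∈ closure U := by
    rw [hU, ← s.H.image_closure]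
    exact ⟨n, F.nV, s.hn⟩
  obtain ⟨w, hwU, hwn⟩ := Metric.mem_closure_iff.1 hnU ε hε
  rw [dist_comm] at hwn
  obtain ⟨h, hhv, Kh, hKh, hKhU, hhs⟩ := move hUo hUc hvU hwU
  have hU0 : ∀ z ∈ U, z ∈ V ∨ z ∈ D 0 := by
    rintro z ⟨y, hy, rfl⟩
    exact s.hV y hy
  have hXU : ∀ y ∈ X, s.H y ∉ U := by
    rintro y hy ⟨y', hy', he⟩
    have := s.H.injective he
    rw [← this] at hy
    exact F.disj _ hy' hy
  obtain ⟨m1, hm1⟩ := F.compact_miss hKg (fun z hz => Or.inr (Or.inr (F.anti (Nat.zero_le _)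
    (hKgD hz))))
  obtain ⟨m2, hm2⟩ := F.compact_miss hKh (fun z hz => Or.inr (hU0 z (hKhU hz)))
  obtain ⟨m3, hm3⟩ := F.compact_miss (isCompact_singleton (x := x)) (fun z hz => Or.inl (by
    rw [mem_singleton_iff] at hz; rw [hz]; exact hxX))
  set m' := max (s.m + 1) (max m1 (max m2 m3)) with hm'
  have hle0 : s.m + 1 ≤ m' := le_max_left _ _
  have hle1 : m1 ≤ m' := (le_max_left _ _).trans (le_max_right _ _)
  have hle2 : m2 ≤ m' := (le_max_left _ _).trans ((le_max_right _ _).trans (le_max_right _ _))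
  have hle3 : m3 ≤ m' := (le_max_right _ _).trans ((le_max_right _ _).trans (le_max_right _ _))
  have hD0 : D m' ⊆ D s.m := F.anti (by omega)
  have hgy : ∀ z, z ∉ D s.m → g z = z := fun z hz => hgs z (fun h1 => hz (hKgD h1))
  have hhy : ∀ z, z ∉ U → h z = z := fun z hz => hhs z (fun h1 => hz (hKhU h1))
  have hagree : ∀ y ∈ X, y ∉ D s.m → h (g (s.H y)) = s.H y := by
    intro y hy hyD
    have h1 : s.H y ∉ D s.m := by
      intro h1
      have h2 := s.H.injective (s.fix _ h1)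
      rw [h2] at h1
      exact hyD h1
    rw [hgy _ h1, hhy _ (hXU y hy)]
  refine ⟨⟨s.H.trans (g.trans h), m', ?_, ?_, ?_, ?_⟩, x, hxX, hxD, ?_, ?_, ?_, ?_⟩
  · intro y hy
    show h (g (s.H y)) = y
    rw [s.fix y (hD0 hy), hgs y (fun h1 => (disjoint_left.1 hm1) h1 (F.anti hle1 hy)),
      hhs y (fun h1 => (disjoint_left.1 hm2) h1 (F.anti hle2 hy))]
  · show h (g (s.H n)) = n
    rw [hagree n F.nX s.nD, s.hn]
  · exact fun h1 => s.nD (hD0 h1)
  · intro y hy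
    show h (g (s.H y)) ∈ V ∨ h (g (s.H y)) ∈ D 0
    have h1 : g (s.H y) ∈ U ∨ g (s.H y) ∈ D 0 := by
      by_cases hk : s.H y ∈ Kg
      · exact Or.inr (F.anti (Nat.zero_le _) (hKgD (mem_of_supp hgs hk)))
      · rw [hgs _ hk]
        exact Or.inl ⟨y, hy, rfl⟩
    by_cases hk : g (s.H y) ∈ Kh
    · exact hU0 _ (hKhU (mem_of_supp hhs hk))
    · rw [hhs _ hk]
      rcases h1 with h1 | h1
      · exact hU0 _ h1
      · exact Or.inr h1
  · exact fun h1 => (disjoint_left.1 hm3) (mem_singleton x) (F.anti hle3 h1)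
  · show s.m < m'
    omega
  · show dist (h (g (s.H x))) n < ε
    rw [s.fix x hxD, hgx, hhv]
    exact hwn
  · exact hagree

theorem Finger.init (F : Finger X V n D) : ∃ s : St V n D, s.H = Homeomorph.refl ℂ := by
  obtain ⟨m, hm⟩ := F.compact_miss (isCompact_singleton (x := n)) (fun z hz => Or.inl (by
    rw [mem_singleton_iff] at hz; rw [hz]; exact F.nX))
  exact ⟨⟨Homeomorph.refl ℂ, m, fun _ _ => rfl, rfl,
    fun h1 => (disjoint_left.1 hm) (mem_singleton n) h1, fun x hx => Or.inl hx⟩, rfl⟩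

theorem Finger.seq (F : Finger X V n D) : ∃ (s : ℕ → St V n D) (x : ℕ → ℂ), ∀ k,
    x k ∈ X ∧ x k ∈ D (s k).m ∧ x k ∉ D (s (k + 1)).m ∧ (s k).m < (s (k + 1)).m ∧
      dist ((s (k + 1)).H (x k)) n < 1 / (k + 1) ∧
      ∀ y ∈ X, y ∉ D (s k).m → (s (k + 1)).H y = (s k).H y := by
  have hst : ∀ (k : ℕ) (s : St V n D), ∃ (s' : St V n D) (x : ℂ), x ∈ X ∧ x ∈ D s.m ∧
      x ∉ D s'.m ∧ s.m < s'.m ∧ dist (s'.H x) n < 1 / (k + 1) ∧
      ∀ y ∈ X, y ∉ D s.m → s'.H y = s.H y := fun k s => F.step s (by positivity)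
  choose nx x hx using hst
  obtain ⟨s0, -⟩ := F.init
  set s : ℕ → St V n D := fun k => Nat.rec s0 (fun k t => nx k t) k with hs
  exact ⟨s, fun k => x k (s k), fun k => hx k (s k)⟩

/-- **The finger lemma.** -/
theorem Finger.not_rigid (F : Finger X V n D) :
    ∃ f : X → ℂ, Continuous f ∧ Function.Injective f ∧ ¬ IsEmbedding f := by
  obtain ⟨s, x, hx⟩ := F.seq
  have hmono : StrictMono (fun k => (s k).m) := strictMono_nat_of_lt_succ (fun k => (hx k).2.2.2.1)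
  have hge : ∀ k, k ≤ (s k).m := fun k => hmono.id_le k
  -- stabilisation
  have hstab : ∀ y ∈ X, ∀ j, y ∉ D (s j).m → ∀ i, j ≤ i → (s i).H y = (s j).H y := by
    intro y hy j hj i hi
    induction i, hi using Nat.le_induction with
    | base => rfl
    | succ i hi ih =>
      rw [← ih]
      exact (hx i).2.2.2.2.2 y hy (fun h1 => hj (F.anti (hmono.monotone hi) h1))
  have hmiss : ∀ y : X, ∃ M, ∃ N ∈ 𝓝 (y : ℂ), Disjoint N (D M) := fun y =>
    F.miss y (Or.inl y.2)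
  choose M N hN hd using hmiss
  have hoff : ∀ (y : X) (z : ℂ), z ∈ N y → z ∉ D (s (M y)).m := fun y z hz h1 =>
    (disjoint_left.1 (hd y)) hz (F.anti (hge _) h1)
  have hself : ∀ y : X, (y : ℂ) ∈ N y := fun y => mem_of_mem_nhds (hN y)
  set f : X → ℂ := fun y => (s (M y)).H y with hf
  have hfj : ∀ (y : X) (j : ℕ), (y : ℂ) ∉ D (s j).m → f y = (s j).H y := by
    intro y j hj
    rcases le_total (M y) j with h | h
    · exact (hstab y y.2 _ (hoff y y (hself y)) j h).symm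
    · exact hstab y y.2 _ hj _ h
  refine ⟨f, ?_, ?_, ?_⟩
  · rw [continuous_iff_continuousAt]
    intro y
    have h1 : ContinuousAt (fun z : X => (s (M y)).H z) y :=
      ((s (M y)).H.continuous.comp continuous_subtype_val).continuousAt
    refine h1.congr ?_
    have h2 : ∀ᶠ z : X in 𝓝 y, (z : ℂ) ∈ N y :=
      continuous_subtype_val.continuousAt.eventually_mem (hN y)
    filter_upwards [h2] with z hz
    exact (hfj z _ (hoff y z hz)).symm
  · intro y z hyz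
    set j := max (M y) (M z) with hj
    have h1 : (y : ℂ) ∉ D (s j).m := fun h1 => hoff y y (hself y)
      (F.anti (hmono.monotone (le_max_left _ _)) h1)
    have h2 : (z : ℂ) ∉ D (s j).m := fun h1 => hoff z z (hself z)
      (F.anti (hmono.monotone (le_max_right _ _)) h1)
    rw [hfj y j h1, hfj z j h2] at hyz
    exact Subtype.ext ((s j).H.injective hyz)
  · intro hemb
    set nn : X := ⟨n, F.nX⟩ with hnn
    set xx : ℕ → X := fun k => ⟨x k, (hx k).1⟩ with hxx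
    have hfn : f nn = n := (s (M nn)).hn
    have hfx : ∀ k, f (xx k) = (s (k + 1)).H (x k) := fun k => hfj (xx k) (k + 1) (hx k).2.2.1
    have h1 : Tendsto (fun k => f (xx k)) atTop (𝓝 (f nn)) := by
      rw [hfn, tendsto_iff_dist_tendsto_zero]
      refine squeeze_zero (fun _ => dist_nonneg) (fun k => ?_)
        tendsto_one_div_add_atTop_nhds_zero_nat
      rw [hfx k]
      exact (hx k).2.2.2.2.1.le
    have h2 : Tendsto xx atTop (𝓝 nn) := by
      rw [hemb.isInducing.tendsto_nhds_iff]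
      exact h1
    have h3 : Tendsto (fun k => (xx k : ℂ)) atTop (𝓝 n) :=
      (continuous_subtype_val.tendsto nn).comp h2
    have h4 : ∀ᶠ k in atTop, x k ∈ N nn := h3.eventually_mem (hN nn)
    obtain ⟨k, hk1, hk2⟩ := (h4.and (eventually_ge_atTop (M nn))).exists
    exact hoff nn _ hk1 (F.anti (hmono.monotone hk2) (hx k).2.1)

end Pool.Agent.Q171.IR
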