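import Mathlib
import Pool.Agent.H172R3.SM.W

/-! # Winding numbers: existence, homotopy invariance, odd loops, logarithms on circles -/

set_option autoImplicit false

noncomputable section

namespace Pool.Agent.Q171.IR

open Complex Set Filter Topology Metric
open Pool.Agent.H172R3.SM (Wind circleMap_two_pi)

/-- a continuous function with values in `2πiℤ` on a preconnected space is constant -/
theorem const_of_int {T : Type*} [TopologicalSpace T] [PreconnectedSpace T] {l : T → ℂ}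
    (hl : Continuous l) (h : ∀ t, ∃ k : ℤ, l t = k * (2 * Real.pi * I)) (s t : T) : l s = l t := by
  choose k hk using h
  have hpi : (2 * (Real.pi : ℂ) * I) ≠ 0 := by simp [Real.pi_ne_zero]
  have hkc : Continuous k := by
    have h3 : Continuous (fun θ => ((k θ : ℤ) : ℝ)) := by
      have h4 : (fun θ => ((k θ : ℤ) : ℝ)) = fun θ => (l θ / (2 * Real.pi * I)).re := by
        funext θ
        have : l θ / (2 * Real.pi * I) = (k θ : ℂ) := by
          rw [div_eq_iff hpi, hk θ]
        rw [this]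
        simp
      rw [h4]
      exact continuous_re.comp (hl.div_const _)
    exact Int.isClosedEmbedding_coe_real.isEmbedding.continuous_iff.2 h3
  have hc : k s = k t := PreconnectedSpace.constant inferInstance hkc
  rw [hk s, hk t, hc]

/-- the loop `u : [0, 2π] → ℂ∖{0}` has winding number `m` -/
def WL (u : ℝ → ℂ) (m : ℤ) : Prop :=
  ∃ l : ℝ → ℂ, Continuous l ∧ (∀ θ : ℝ, u θ = exp (l θ)) ∧
    l (2 * Real.pi) - l 0 = 2 * Real.pi * m * I

theorem wind_iff {f : ℂ → ℂ} {c : ℂ} {r : ℝ} {m : ℤ} :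
    Wind f c r m ↔ WL (fun θ => f (circleMap c r θ)) m := Iff.rfl

theorem lifts_eq {u : ℝ → ℂ} {l1 l2 : ℝ → ℂ} (c1 : Continuous l1) (c2 : Continuous l2)
    (e1 : ∀ θ, u θ = exp (l1 θ)) (e2 : ∀ θ, u θ = exp (l2 θ)) (a b : ℝ) :
    l1 a - l1 b = l2 a - l2 b := by
  have h := const_of_int (l := fun θ => l1 θ - l2 θ) (c1.sub c2) (fun θ => by
    have : exp (l1 θ) = exp (l2 θ) := by rw [← e1, ← e2]
    obtain ⟨n, hn⟩ := exp_eq_exp_iff_exists_int.1 this
    exact ⟨n, by rw [hn]; ring⟩) a b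
  have h' : l1 a - l2 a = l1 b - l2 b := h
  linear_combination h'

theorem WL.val {u : ℝ → ℂ} {m : ℤ} (h : WL u m) {l : ℝ → ℂ} (hl : Continuous l)
    (he : ∀ θ, u θ = exp (l θ)) : l (2 * Real.pi) - l 0 = 2 * Real.pi * m * I := by
  obtain ⟨l1, c1, e1, d1⟩ := h
  rw [← d1]
  exact lifts_eq hl c1 he e1 _ _

theorem exists_log_open {X : Type*} [NormedAddCommGroup X] [NormedSpace ℝ X] {U : Set X}
    (hU : IsOpen U) (hc : Convex ℝ U) (hne : U.Nonempty) {K : X → ℂ} (hK : ContinuousOn K U)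
    (h0 : ∀ p ∈ U, K p ≠ 0) : ∃ L : X → ℂ, ContinuousOn L U ∧ ∀ p ∈ U, exp (L p) = K p := by
  have hsc : IsSimplyConnected U := by
    have : ContractibleSpace U := hc.contractibleSpace hne
    show SimplyConnectedSpace U
    infer_instance
  have : LocallyPathConnectedSpace X := inferInstance
  obtain ⟨L, hL, hE⟩ := Complex.exists_continuousOn_eqOn_exp_comp hsc hU
    hK (by rintro ⟨z, hz, hz'⟩; exact h0 z hz hz')
  exact ⟨L, hL, fun z hz => hE hz⟩

theorem WL.exists {u : ℝ → ℂ} (hu : Continuous u) (h0 : ∀ t, u t ≠ 0)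
    (hp : u (2 * Real.pi) = u 0) : ∃ m, WL u m := by
  obtain ⟨l, hl, he⟩ := exists_log_open isOpen_univ convex_univ univ_nonempty hu.continuousOn
    (fun t _ => h0 t)
  have h1 : Complex.exp (l (2 * Real.pi)) = Complex.exp (l 0) := by
    rw [he _ (mem_univ _), he _ (mem_univ _), hp]
  obtain ⟨m, hm⟩ := Complex.exp_eq_exp_iff_exists_int.1 h1
  exact ⟨m, l, continuousOn_univ.1 hl, fun θ => (he θ (mem_univ _)).symm, by rw [hm]; ring⟩

theorem Wind.exists {g : ℂ → ℂ} {c : ℂ} {r : ℝ} (hr : 0 ≤ r) (hg : ContinuousOn g (sphere c r))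
    (h0 : ∀ z ∈ sphere c r, g z ≠ 0) : ∃ m : ℤ, Wind g c r m :=
  WL.exists (hg.comp_continuous (continuous_circleMap c r)
    (fun θ => circleMap_mem_sphere c hr θ)) (fun θ => h0 _ (circleMap_mem_sphere c hr θ))
    (by rw [circleMap_two_pi])

/-- homotopy invariance -/
theorem WL.homotopy {K : ℝ × ℝ → ℂ} {a b : ℝ} (hK : ContinuousOn K (Ioo a b ×ˢ univ))
    (h0 : ∀ p ∈ Ioo a b ×ˢ univ, K p ≠ 0)
    (hper : ∀ t ∈ Ioo a b, K (t, 2 * Real.pi) = K (t, 0)) {s t : ℝ} (hs : s ∈ Ioo a b)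
    (ht : t ∈ Ioo a b) {m : ℤ} (h : WL (fun θ => K (s, θ)) m) : WL (fun θ => K (t, θ)) m := by
  have hne : (Ioo a b ×ˢ (univ : Set ℝ)).Nonempty := ⟨(s, 0), hs, mem_univ _⟩
  obtain ⟨L, hL, hE⟩ := exists_log_open (isOpen_Ioo.prod isOpen_univ)
    ((convex_Ioo a b).prod convex_univ) hne hK h0
  have hc : ∀ x ∈ Ioo a b, Continuous (fun θ => L (x, θ)) := fun x hx =>
    hL.comp_continuous (by fun_prop) (fun θ => ⟨hx, mem_univ _⟩)
  have hc2 : ∀ θ : ℝ, Continuous (fun x : Ioo a b => L (x, θ)) := fun θ =>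
    hL.comp_continuous (by fun_prop) (fun x => ⟨x.2, mem_univ _⟩)
  have : PreconnectedSpace (Ioo a b) := Subtype.preconnectedSpace isPreconnected_Ioo
  have h1 := const_of_int (l := fun x : Ioo a b => L (x, 2 * Real.pi) - L (x, 0))
    ((hc2 (2 * Real.pi)).sub (hc2 0)) (fun x => by
    have : exp (L (x, 2 * Real.pi)) = exp (L (x, 0)) := by
      rw [hE _ ⟨x.2, mem_univ _⟩, hE _ ⟨x.2, mem_univ _⟩, hper _ x.2]
    obtain ⟨n, hn⟩ := exp_eq_exp_iff_exists_int.1 this
    exact ⟨n, by rw [hn]; ring⟩) ⟨s, hs⟩ ⟨t, ht⟩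
  have h2 := h.val (hc s hs) (fun θ => (hE _ ⟨hs, mem_univ _⟩).symm)
  refine ⟨fun θ => L (t, θ), hc t ht, fun θ => (hE _ ⟨ht, mem_univ _⟩).symm, ?_⟩
  have h3 : L (s, 2 * Real.pi) - L (s, 0) = L (t, 2 * Real.pi) - L (t, 0) := h1
  rw [← h3]
  exact h2

/-- odd loops have odd winding number -/
theorem WL.odd {u : ℝ → ℂ} (hodd : ∀ θ, u (θ + Real.pi) = - u θ) {m : ℤ} (h : WL u m) :
    Odd m := by
  obtain ⟨l, hl, he, hd⟩ := h
  have hcont : Continuous (fun θ => l (θ + Real.pi) - l θ - Real.pi * I) := by fun_prop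
  have hint : ∀ θ, ∃ k : ℤ, l (θ + Real.pi) - l θ - Real.pi * I = k * (2 * Real.pi * I) := by
    intro θ
    have : exp (l (θ + Real.pi)) = exp (l θ + Real.pi * I) := by
      rw [← he, hodd, he, exp_add, exp_pi_mul_I]; ring
    obtain ⟨n, hn⟩ := exp_eq_exp_iff_exists_int.1 this
    exact ⟨n, by rw [hn]; ring⟩
  have h1 := const_of_int hcont hint 0 Real.pi
  obtain ⟨k, hk⟩ := hint 0
  have h2 : l (0 + Real.pi) - l 0 - Real.pi * I = l (Real.pi + Real.pi) - l Real.pi - Real.pi * I :=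
    h1
  rw [zero_add] at h2 hk
  have h3 : l (2 * Real.pi) - l 0 = (2 * k + 1) * (2 * Real.pi * I) := by
    rw [two_mul]
    linear_combination (-1 : ℂ) * h2 + 2 * hk
  rw [hd] at h3
  have hpi : (2 * (Real.pi : ℂ) * I) ≠ 0 := by simp [Real.pi_ne_zero]
  have h4 : (2 * (Real.pi : ℂ) * I) * m = (2 * (Real.pi : ℂ) * I) * (2 * k + 1) := by
    linear_combination h3
  have h5 := mul_left_cancel₀ hpi h4
  exact ⟨k, by exact_mod_cast h5⟩

theorem Wind.zpow {f : ℂ → ℂ} {c : ℂ} {r : ℝ} {m : ℤ} (h : Wind f c r m) (k : ℤ) :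
    Wind (fun z => f z ^ k) c r (k * m) := by
  obtain ⟨l, hl, he, hd⟩ := h
  refine ⟨fun θ => k * l θ, by fun_prop, fun θ => ?_, ?_⟩
  · show f (circleMap c r θ) ^ k = exp (k * l θ)
    rw [he, Complex.exp_int_mul]
  · push_cast
    linear_combination (k : ℂ) * hd

/-- if the winding number vanishes there is a logarithm on the circle -/
theorem exists_log_sphere {g : ℂ → ℂ} {c : ℂ} {r : ℝ} (hr : 0 < r) (h : Wind g c r 0) :
    ∃ L : ℂ → ℂ, ContinuousOn L (sphere c r) ∧ ∀ z ∈ sphere c r, Complex.exp (L z) = g z := by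
  obtain ⟨l, hl, he, hd⟩ := h
  have hper : Function.Periodic l (2 * Real.pi) := by
    intro θ
    have h1 := const_of_int (l := fun θ => l (θ + 2 * Real.pi) - l θ) (by fun_prop) (fun θ => by
      have : exp (l (θ + 2 * Real.pi)) = exp (l θ) := by
        rw [← he, ← he, periodic_circleMap c r θ]
      obtain ⟨n, hn⟩ := exp_eq_exp_iff_exists_int.1 this
      exact ⟨n, by rw [hn]; ring⟩) θ 0
    have h2 : l (θ + 2 * Real.pi) - l θ = l (0 + 2 * Real.pi) - l 0 := h1
    rw [zero_add, hd] at h2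
    have h3 : l (θ + 2 * Real.pi) - l θ = 0 := by rw [h2]; simp
    exact sub_eq_zero.1 h3
  have hli : ∀ α β : ℝ, circleMap c r α = circleMap c r β → l α = l β := by
    intro α β hab
    have h1 : exp (α * I) = exp (β * I) := by
      simp only [circleMap] at hab
      have h2 := add_left_cancel hab
      exact mul_left_cancel₀ (by exact_mod_cast hr.ne') h2
    obtain ⟨n, hn⟩ := exp_eq_exp_iff_exists_int.1 h1
    have h2 : (α : ℂ) = β + n * (2 * Real.pi) := by
      have h3 : ((α : ℂ) - (β + n * (2 * Real.pi))) * I = 0 := by linear_combination hn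
      rcases mul_eq_zero.1 h3 with h4 | h4
      · exact sub_eq_zero.1 h4
      · exact absurd h4 I_ne_zero
    have h3 : α = β + n * (2 * Real.pi) := by exact_mod_cast h2
    rw [h3]
    exact hper.int_mul n β
  have hcm : ∀ z ∈ sphere c r, circleMap c r (arg (z - c)) = z := by
    intro z hz
    rw [mem_sphere, dist_eq_norm] at hz
    rw [circleMap, ← hz, norm_mul_exp_arg_mul_I]
    ring
  refine ⟨fun z => l (arg (z - c)), ?_, fun z hz => ?_⟩
  · intro z0 hz0
    have hne : z0 - c ≠ 0 := by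
      intro h0
      rw [mem_sphere, dist_eq_norm, h0, norm_zero] at hz0
      exact hr.ne hz0
    have hloc : ContinuousAt (fun z => l (arg (z0 - c) + arg ((z - c) / (z0 - c)))) z0 := by
      refine hl.continuousAt.comp ?_
      refine continuousAt_const.add ?_
      refine ContinuousAt.comp (f := fun z : ℂ => (z - c) / (z0 - c)) (g := arg) ?_ ?_
      · apply continuousAt_arg
        rw [div_self hne]
        exact one_mem_slitPlane
      · fun_prop (disch := assumption)
    refine hloc.continuousWithinAt.congr (fun z hz => ?_) ?_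
    · apply hli
      rw [hcm z hz, circleMap]
      have hz' := hz
      rw [mem_sphere, dist_eq_norm] at hz'
      have hz0' := hz0
      rw [mem_sphere, dist_eq_norm] at hz0'
      push_cast
      rw [add_mul, exp_add]
      have h1 : ((r : ℝ) : ℂ) * exp (arg (z0 - c) * I) = z0 - c := by
        rw [← hz0', norm_mul_exp_arg_mul_I]
      have h2 : exp (arg ((z - c) / (z0 - c)) * I) = (z - c) / (z0 - c) := by
        have h3 := norm_mul_exp_arg_mul_I ((z - c) / (z0 - c))
        rw [norm_div, hz', hz0', div_self hr.ne', ofReal_one, one_mul] at h3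
        exact h3
      rw [← mul_assoc, h1, h2]
      field_simp
      ring
    · show l (arg (z0 - c)) = l (arg (z0 - c) + arg ((z0 - c) / (z0 - c)))
      rw [div_self hne, arg_one, add_zero]
  · rw [← he, hcm z hz]

end Pool.Agent.Q171.IR
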