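import Mathlib
import Pool.Agent.Q171.IR.Wind

/-! # The winding number jumps when the circle crosses the point -/

set_option autoImplicit false

noncomputable section

namespace Pool.Agent.Q171.IR

open Complex Set Filter Topology Metric
open Pool.Agent.H172R3.SM (Wind circleMap_two_pi)

/-- change of radius -/
theorem Wind.radius {g : ℂ → ℂ} {a b : ℝ} (ha : 0 ≤ a)
    (hg : ContinuousOn g {z | a < ‖z‖ ∧ ‖z‖ < b}) (h0 : ∀ z, a < ‖z‖ → ‖z‖ < b → g z ≠ 0)
    {r s : ℝ} (hr : r ∈ Ioo a b) (hs : s ∈ Ioo a b) {m : ℤ} (h : Wind g 0 r m) :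
    Wind g 0 s m := by
  have hn : ∀ p : ℝ × ℝ, p ∈ Ioo a b ×ˢ (univ : Set ℝ) → ‖circleMap 0 p.1 p.2‖ = p.1 := by
    intro p hp
    rw [norm_circleMap_zero, abs_of_pos (lt_of_le_of_lt ha hp.1.1)]
  refine WL.homotopy (K := fun p => g (circleMap 0 p.1 p.2)) (a := a) (b := b) ?_ ?_ ?_ hr hs h
  · refine hg.comp (Continuous.continuousOn ?_) ?_
    · simp only [circleMap]
      fun_prop
    · intro p hp
      show a < ‖circleMap 0 p.1 p.2‖ ∧ ‖circleMap 0 p.1 p.2‖ < b
      rw [hn p hp]
      exact hp.1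
  · intro p hp
    apply h0
    · rw [hn p hp]; exact hp.1.1
    · rw [hn p hp]; exact hp.1.2
  · intro t _
    show g _ = g _
    rw [circleMap_two_pi]

/-- an injective map winds an odd number of times around the image of the centre -/
theorem local_odd {f : ℂ → ℂ} {x0 : ℂ} {ρ ε : ℝ} (hε : 0 < ε) (hρ : 2 * ε < ρ)
    (hf : ContinuousOn f (ball x0 ρ)) (hi : InjOn f (ball x0 ρ)) {d : ℤ}
    (h : Wind (fun z => f z - f x0) x0 ε d) : Odd d := by
  set e : ℝ → ℂ := fun θ => circleMap 0 ε θ with he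
  have hen : ∀ θ, ‖e θ‖ = ε := fun θ => by
    rw [he]; simp [abs_of_pos hε]
  have hec : Continuous e := continuous_circleMap 0 ε
  have hm1 : ∀ p ∈ Ioo (-(1:ℝ)/2) (3/2) ×ˢ (univ : Set ℝ),
      x0 + e p.2 / (1 + p.1) ∈ ball x0 ρ := by
    intro p hp
    have h1 : 0 < 1 + p.1 := by linarith [hp.1.1]
    rw [mem_ball, dist_eq_norm, add_sub_cancel_left, norm_div, hen]
    have h2 : ‖(1 + (p.1 : ℂ))‖ = 1 + p.1 := by
      rw [← ofReal_one, ← ofReal_add, norm_real, Real.norm_of_nonneg h1.le]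
    rw [h2, div_lt_iff₀ h1]
    have h3 : ε / (1/2) < ρ := by linarith
    nlinarith [hp.1.1]
  have hm2 : ∀ p ∈ Ioo (-(1:ℝ)/2) (3/2) ×ˢ (univ : Set ℝ),
      x0 - p.1 * e p.2 / (1 + p.1) ∈ ball x0 ρ := by
    intro p hp
    have h1 : 0 < 1 + p.1 := by linarith [hp.1.1]
    rw [mem_ball, dist_eq_norm, sub_sub_cancel_left, norm_neg, norm_div, norm_mul, hen]
    have h2 : ‖(1 + (p.1 : ℂ))‖ = 1 + p.1 := by
      rw [← ofReal_one, ← ofReal_add, norm_real, Real.norm_of_nonneg h1.le]
    rw [h2, div_lt_iff₀ h1, norm_real, Real.norm_eq_abs]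
    have h3 : |p.1| ≤ 1 * (1 + p.1) := by
      rw [abs_le]
      constructor <;> nlinarith [hp.1.1]
    nlinarith [abs_nonneg p.1]
  have h1 : ∀ p ∈ Ioo (-(1:ℝ)/2) (3/2) ×ˢ (univ : Set ℝ), (1 + (p.1 : ℂ)) ≠ 0 := by
    intro p hp h0
    have h1 : 0 < 1 + p.1 := by linarith [hp.1.1]
    have h2 : ((1 + p.1 : ℝ) : ℂ) = 0 := by push_cast; exact h0
    exact h1.ne' (by exact_mod_cast h2)
  have hW : WL (fun θ => f (x0 + e θ / (1 + (1:ℝ))) - f (x0 - (1:ℝ) * e θ / (1 + (1:ℝ)))) d := by
    refine WL.homotopy (K := fun p : ℝ × ℝ => f (x0 + e p.2 / (1 + p.1)) -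
      f (x0 - p.1 * e p.2 / (1 + p.1))) (a := -1/2) (b := 3/2) ?_ ?_ ?_ (s := 0) (t := 1)
      (by norm_num) (by norm_num) ?_
    · refine ContinuousOn.sub (hf.comp ?_ hm1) (hf.comp ?_ hm2)
      · refine continuousOn_const.add (ContinuousOn.div ?_ ?_ h1)
        · fun_prop
        · fun_prop
      · refine continuousOn_const.sub (ContinuousOn.div ?_ ?_ h1)
        · fun_prop
        · fun_prop
    · intro p hp h0
      have h2 := hi (hm1 p hp) (hm2 p hp) (sub_eq_zero.1 h0)
      have h3 := h1 p hp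
      have h4 : e p.2 = 0 := by
        field_simp at h2
        have h5 : e p.2 * (1 + p.1) = 0 := by linear_combination h2
        exact (mul_eq_zero.1 h5).resolve_right h3
      have h5 := hen p.2
      rw [h4, norm_zero] at h5
      exact hε.ne h5
    · intro t _
      have h2 : e (2 * Real.pi) = e 0 := circleMap_two_pi 0 ε
      simp only [h2]
    · have h2 : (fun θ => f (x0 + e θ / (1 + ((0:ℝ):ℂ))) - f (x0 - ((0:ℝ):ℂ) * e θ / (1 + ((0:ℝ):ℂ))))
          = fun θ => f (circleMap x0 ε θ) - f x0 := by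
        funext θ
        simp [he, circleMap]
      show WL (fun θ => f (x0 + e θ / (1 + ((0:ℝ):ℂ))) -
        f (x0 - ((0:ℝ):ℂ) * e θ / (1 + ((0:ℝ):ℂ)))) d
      rw [h2]
      exact h
  refine WL.odd (fun θ => ?_) hW
  have h2 : e (θ + Real.pi) = - e θ := by
    simp only [he, circleMap]
    push_cast
    rw [add_mul, exp_add, exp_pi_mul_I]
    ring
  simp only [h2]
  push_cast
  have e1 : x0 + -e θ / (1 + 1) = x0 - 1 * e θ / (1 + 1) := by ring
  have e2 : x0 - 1 * -e θ / (1 + 1) = x0 + e θ / (1 + 1) := by ring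
  rw [e1, e2]
  ring

/-- the winding numbers around `f x0` of the images of two circles with centre `0`, one on each
side of `x0`, are different -/
theorem jump {f : ℂ → ℂ} {a b : ℝ} (ha : 0 ≤ a)
    (hf : ContinuousOn f {z | a < ‖z‖ ∧ ‖z‖ < b}) (hi : InjOn f {z | a < ‖z‖ ∧ ‖z‖ < b})
    {x0 : ℂ} {r s : ℝ} (h1 : a < r) (h2 : r < ‖x0‖) (h3 : ‖x0‖ < s) (h4 : s < b) {m n : ℤ}
    (hm : Wind (fun z => f z - f x0) 0 r m) (hn : Wind (fun z => f z - f x0) 0 s n) : m ≠ n := by
  set A : Set ℂ := {z | a < ‖z‖ ∧ ‖z‖ < b} with hA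
  have hAo : IsOpen A := (isOpen_lt continuous_const continuous_norm).inter
    (isOpen_lt continuous_norm continuous_const)
  obtain ⟨ρ, hρ, hρ1, hρ2⟩ : ∃ ρ, 0 < ρ ∧ ρ < ‖x0‖ - r ∧ ρ < s - ‖x0‖ := by
    refine ⟨min (‖x0‖ - r) (s - ‖x0‖) / 2, ?_, ?_, ?_⟩
    · have : 0 < min (‖x0‖ - r) (s - ‖x0‖) := lt_min (by linarith) (by linarith)
      linarith
    · have h5 := min_le_left (‖x0‖ - r) (s - ‖x0‖)
      have : 0 < min (‖x0‖ - r) (s - ‖x0‖) := lt_min (by linarith) (by linarith)
      linarith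
    · have h5 := min_le_right (‖x0‖ - r) (s - ‖x0‖)
      have : 0 < min (‖x0‖ - r) (s - ‖x0‖) := lt_min (by linarith) (by linarith)
      linarith
  have hb : ∀ z ∈ closedBall x0 ρ, r < ‖z‖ ∧ ‖z‖ < s := by
    intro z hz
    rw [mem_closedBall, dist_eq_norm] at hz
    have h5 := norm_sub_norm_le x0 z
    have h6 := norm_sub_norm_le z x0
    rw [norm_sub_rev] at h5
    constructor <;> linarith
  have hbA : ball x0 ρ ⊆ A := fun z hz => by
    have := hb z (ball_subset_closedBall hz)
    exact ⟨by linarith [this.1], by linarith [this.2]⟩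
  set ε := ρ / 3 with hε
  have hε0 : 0 < ε := by positivity
  have hsb : closedBall x0 ε ⊆ ball x0 ρ := closedBall_subset_ball (by rw [hε]; linarith)
  have hx0 : x0 ∈ A := hbA (mem_ball_self hρ)
  have hfne : ∀ z ∈ A, z ≠ x0 → f z - f x0 ≠ 0 := fun z hz hzx h0 =>
    hzx (hi hz hx0 (sub_eq_zero.1 h0))
  have hsph : ∀ z ∈ sphere x0 ε, z ≠ x0 := fun z hz h0 => by
    rw [h0, mem_sphere, dist_self] at hz
    exact hε0.ne hz
  -- the local degree
  obtain ⟨d, hd⟩ := Wind.exists (g := fun z => f z - f x0) (c := x0) hε0.le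
    ((hf.mono (sphere_subset_closedBall.trans (hsb.trans hbA))).sub continuousOn_const)
    (fun z hz => hfne z (hbA (hsb (sphere_subset_closedBall hz))) (hsph z hz))
  have hdo : Odd d := local_odd hε0 (by rw [hε]; linarith) (hf.mono hbA) (hi.mono hbA) hd
  -- dividing by a power
  set g : ℂ → ℂ := fun z => (f z - f x0) * ((z - x0) ^ (-d)) with hg
  have hgc : ContinuousOn g (A \ {x0}) := by
    refine ((hf.mono sdiff_subset).sub continuousOn_const).mul ?_
    refine ContinuousOn.zpow₀ (by fun_prop) _ (fun z hz => Or.inl ?_)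
    exact sub_ne_zero.2 hz.2
  have hgne : ∀ z ∈ A, z ≠ x0 → g z ≠ 0 := fun z hz hzx =>
    mul_ne_zero (hfne z hz hzx) (zpow_ne_zero _ (sub_ne_zero.2 hzx))
  have hgw : Wind g x0 ε 0 := by
    have h5 := (Wind.zpow (Pool.Agent.H172R3.SM.Wind.center (c := x0) hε0) (-d))
    have h6 := hd.mul h5
    rw [mul_one, add_neg_cancel] at h6
    exact h6
  obtain ⟨L, hL, hLe⟩ := exists_log_sphere hε0 hgw
  -- extend the logarithm to the plane
  obtain ⟨L', hL'⟩ := ContinuousMap.exists_extension (X := ℂ) (Y := ℂ)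
    (X₁ := sphere x0 ε) (e := Subtype.val)
    (isClosed_sphere (x := x0) (ε := ε)).isClosedEmbedding_subtypeVal
    ⟨fun z => L z, continuousOn_iff_continuous_domRestrict.1 hL⟩
  have hL'e : ∀ z ∈ sphere x0 ε, L' z = L z := fun z hz => by
    have := congrArg (fun F : C(sphere x0 ε, ℂ) => F ⟨z, hz⟩) hL'
    exact this
  classical
  set G : ℂ → ℂ := fun z => if dist z x0 ≤ ε then Complex.exp (L' z) else g z with hG
  have hGc : ContinuousOn G A := by
    have hGc1 : ContinuousOn G (closedBall x0 ε) := by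
      refine (Complex.continuous_exp.comp L'.continuous).continuousOn.congr (fun z hz => ?_)
      rw [mem_closedBall] at hz
      simp only [hG, hz, if_true]
      rfl
    have hGc2 : ContinuousOn G (A ∩ {z | ε ≤ dist z x0}) := by
      have h5 : A ∩ {z | ε ≤ dist z x0} ⊆ A \ {x0} := by
        rintro z ⟨hz, hz2⟩
        refine ⟨hz, fun h0 => ?_⟩
        rw [mem_singleton_iff] at h0
        rw [Set.mem_ofPred_eq, h0, dist_self] at hz2
        linarith
      refine (hgc.mono h5).congr (fun z hz => ?_)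
      by_cases h6 : dist z x0 ≤ ε
      · have h7 : z ∈ sphere x0 ε := le_antisymm h6 hz.2
        simp only [hG, h6, if_true]
        rw [hL'e z h7, hLe z h7]
      · simp only [hG, h6, if_false]
    intro z hz
    have h5 : A = closedBall x0 ε ∪ (A ∩ {z | ε ≤ dist z x0}) := by
      ext w
      constructor
      · intro hw
        rcases le_total (dist w x0) ε with h | h
        · exact Or.inl h
        · exact Or.inr ⟨hw, h⟩
      · rintro (h | h)
        · exact hbA (hsb h)
        · exact h.1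
    have h6 : ∀ z ∈ A, ContinuousWithinAt G (closedBall x0 ε) z ∧
        ContinuousWithinAt G (A ∩ {z | ε ≤ dist z x0}) z := by
      intro z hz
      constructor
      · by_cases h : z ∈ closedBall x0 ε
        · exact hGc1 z h
        · exact continuousWithinAt_of_notMem_closure (by rwa [isClosed_closedBall.closure_eq])
      · by_cases h : ε ≤ dist z x0
        · exact hGc2 z ⟨hz, h⟩
        · refine continuousWithinAt_of_notMem_closure (fun h7 => h ?_)
          have h8 := closure_mono (inter_subset_right) h7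
          rwa [IsClosed.closure_eq (isClosed_le continuous_const (by fun_prop))] at h8
    rw [h5]
    exact (h6 z hz).1.union (h6 z hz).2
  have hGne : ∀ z, a < ‖z‖ → ‖z‖ < b → G z ≠ 0 := by
    intro z hz1 hz2
    by_cases h6 : dist z x0 ≤ ε
    · simp only [hG, h6, if_true]
      exact exp_ne_zero _
    · simp only [hG, h6, if_false]
      refine hgne z ⟨hz1, hz2⟩ (fun h0 => h6 ?_)
      rw [h0, dist_self]; exact hε0.le
  -- winding numbers of `G`
  have hr0 : 0 < r := lt_of_le_of_lt ha h1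
  have hs0 : 0 < s := by linarith
  have hout : ∀ z : ℂ, (‖z‖ = r ∨ ‖z‖ = s) → G z = g z := by
    intro z hz
    have h6 : ¬ dist z x0 ≤ ε := fun h7 => by
      have h8 := hb z (ball_subset_closedBall (hsb h7))
      rcases hz with hz | hz
      · linarith [h8.1]
      · linarith [h8.2]
    simp only [hG, h6, if_false]
  have hgr : Wind g 0 r m := by
    have h5 := Wind.zpow (Pool.Agent.H172R3.SM.Wind.sub_outside (c := 0) (p := x0) hr0.le
      (by rwa [sub_zero])) (-d)
    have h6 := hm.mul h5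
    rw [mul_zero, add_zero] at h6
    exact h6
  have hgs : Wind g 0 s (n - d) := by
    have h5 := Wind.zpow (Pool.Agent.H172R3.SM.Wind.sub_inside (c := 0) (p := x0) (r := s)
      (by rwa [sub_zero])) (-d)
    have h6 := hn.mul h5
    rw [mul_one, ← sub_eq_add_neg] at h6
    exact h6
  have hGr : Wind G 0 r m := hgr.congr hr0.le (fun z hz => by
    rw [mem_sphere, dist_zero_right] at hz
    exact (hout z (Or.inl hz)).symm)
  have hGs : Wind G 0 s (n - d) := hgs.congr hs0.le (fun z hz => by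
    rw [mem_sphere, dist_zero_right] at hz
    exact (hout z (Or.inr hz)).symm)
  have h5 := Wind.radius ha hGc hGne (r := r) (s := s) ⟨h1, by linarith⟩ ⟨by linarith, h4⟩ hGr
  have h6 := h5.unique hGs
  intro h7
  rw [h7] at h6
  have h8 : d = 0 := by omega
  rw [h8] at hdo
  exact absurd hdo (by decide)

end Pool.Agent.Q171.IR
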