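import Mathlib
import Pool.Agent.Q171.IR.Jump

/-! # Closed connected planar sets with bounded complement are injectively rigid -/

set_option autoImplicit false

noncomputable section

namespace Pool.Agent.Q171.IR

open Complex Set Filter Topology Metric
open Pool.Agent.H172R3.SM (Wind circleMap_two_pi)

theorem sphere_nonempty' {r : ℝ} (hr : 0 ≤ r) : (sphere (0 : ℂ) r).Nonempty :=
  ⟨(r : ℂ), by rw [mem_sphere, dist_zero_right, norm_real, Real.norm_of_nonneg hr]⟩

/-- the winding number does not change when the point is moved a little -/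
theorem close_pt {F : ℂ → ℂ} {r : ℝ} (hr : 0 ≤ r) (hF : ContinuousOn F (sphere 0 r)) {p : ℂ}
    (hp : ∀ z ∈ sphere 0 r, F z ≠ p) {m : ℤ} (h : Wind (fun z => F z - p) 0 r m) :
    ∃ δ > 0, ∀ q, dist q p < δ → Wind (fun z => F z - q) 0 r m := by
  obtain ⟨z0, hz0, hmin⟩ := (isCompact_sphere (0 : ℂ) r).exists_isMinOn (sphere_nonempty' hr)
    (hF.sub continuousOn_const).norm (f := fun z => ‖F z - p‖)
  refine ⟨‖F z0 - p‖, norm_pos_iff.2 (sub_ne_zero.2 (hp z0 hz0)), fun q hq => ?_⟩
  refine h.close hr (hF.sub continuousOn_const) (hF.sub continuousOn_const) (fun z hz => ?_)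
  have h1 : ‖F z0 - p‖ ≤ ‖F z - p‖ := hmin hz
  have h2 : (F z - q) - (F z - p) = -(q - p) := by ring
  rw [h2, norm_neg, ← dist_eq_norm]
  exact lt_of_lt_of_le hq h1

theorem preconnected_outside {R : ℝ} (hR : 0 < R) : IsPreconnected {z : ℂ | R < ‖z‖} := by
  have h1 : {z : ℂ | R < ‖z‖} = Complex.exp '' {w | Real.log R < w.re} := by
    ext z
    constructor
    · intro hz
      have hz' : R < ‖z‖ := hz
      have hne : z ≠ 0 := norm_pos_iff.1 (hR.trans hz')
      refine ⟨Complex.log z, ?_, exp_log hne⟩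
      show Real.log R < (Complex.log z).re
      rw [log_re]
      exact Real.log_lt_log hR hz'
    · rintro ⟨w, hw, rfl⟩
      show R < ‖Complex.exp w‖
      rw [norm_exp, ← Real.exp_log hR]
      exact Real.exp_lt_exp.2 hw
  rw [h1]
  exact ((convex_halfSpace_re_gt _).isPreconnected).image _ Complex.continuous_exp.continuousOn

section

variable {X : Set ℂ} {R : ℝ} {F : ℂ → ℂ}

theorem W_exists (hR : 0 < R) (hX : ∀ z, R < ‖z‖ → z ∈ X) (hF : ContinuousOn F X)
    (hi : InjOn F X) {x : ℂ} (hx : x ∈ X) :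
    ∃ m : ℤ, ∀ r, R < r → ‖x‖ < r → Wind (fun z => F z - F x) 0 r m := by
  set a := max R ‖x‖ with ha
  have ha0 : 0 < a := lt_of_lt_of_le hR (le_max_left _ _)
  have hsub : ∀ z : ℂ, a < ‖z‖ → z ∈ X := fun z hz => hX z (lt_of_le_of_lt (le_max_left _ _) hz)
  have hne : ∀ z : ℂ, a < ‖z‖ → F z - F x ≠ 0 := fun z hz h0 => by
    have := hi (hsub z hz) hx (sub_eq_zero.1 h0)
    rw [this] at hz
    exact absurd hz (not_lt.2 (le_max_right _ _))
  obtain ⟨m, hm⟩ := Wind.exists (g := fun z => F z - F x) (c := 0) (r := a + 1) (by positivity)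
    ((hF.mono (fun z hz => hsub z (by rw [mem_sphere, dist_zero_right] at hz; linarith))).sub
      continuousOn_const)
    (fun z hz => hne z (by rw [mem_sphere, dist_zero_right] at hz; linarith))
  refine ⟨m, fun r hr1 hr2 => ?_⟩
  have hr : a < r := max_lt hr1 hr2
  refine Wind.radius (a := a) (b := max r (a + 1) + 1) ha0.le ?_ ?_ ?_ ?_ hm
  · exact (hF.mono (fun z hz => hsub z hz.1)).sub continuousOn_const
  · exact fun z hz _ => hne z hz
  · exact ⟨by linarith, by linarith [le_max_right r (a + 1)]⟩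
  · exact ⟨hr, by linarith [le_max_left r (a + 1)]⟩

theorem V_exists (hR : 0 < R) (hX : ∀ z, R < ‖z‖ → z ∈ X) (hF : ContinuousOn F X)
    (hi : InjOn F X) {x : ℂ} (hx : R < ‖x‖) :
    ∃ m : ℤ, ∀ r, R < r → r < ‖x‖ → Wind (fun z => F z - F x) 0 r m := by
  have hne : ∀ z : ℂ, R < ‖z‖ → ‖z‖ < ‖x‖ → F z - F x ≠ 0 := fun z hz hz2 h0 => by
    have := hi (hX z hz) (hX x hx) (sub_eq_zero.1 h0)
    rw [this] at hz2
    exact lt_irrefl _ hz2
  obtain ⟨m, hm⟩ := Wind.exists (g := fun z => F z - F x) (c := 0) (r := (R + ‖x‖) / 2)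
    (by positivity)
    ((hF.mono (fun z hz => hX z (by rw [mem_sphere, dist_zero_right] at hz; linarith))).sub
      continuousOn_const)
    (fun z hz => hne z (by rw [mem_sphere, dist_zero_right] at hz; linarith)
      (by rw [mem_sphere, dist_zero_right] at hz; linarith))
  refine ⟨m, fun r hr1 hr2 => ?_⟩
  refine Wind.radius (a := R) (b := ‖x‖) hR.le ?_ hne ?_ ?_ hm
  · exact (hF.mono (fun z hz => hX z hz.1)).sub continuousOn_const
  · exact ⟨by linarith, by linarith⟩
  · exact ⟨hr1, hr2⟩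

theorem W_const (hR : 0 < R) (hX : ∀ z, R < ‖z‖ → z ∈ X) (hc : IsPreconnected X)
    (hF : ContinuousOn F X) (hi : InjOn F X) :
    ∃ m : ℤ, ∀ x ∈ X, ∀ r, R < r → ‖x‖ < r → Wind (fun z => F z - F x) 0 r m := by
  have hex := fun x : X => W_exists hR hX hF hi x.2
  choose k hk using hex
  have hloc : IsLocallyConstant k := by
    rw [IsLocallyConstant.iff_eventually_eq]
    intro x
    set r := max R ‖(x : ℂ)‖ + 1 with hr
    have hr1 : R < r := by linarith [le_max_left R ‖(x : ℂ)‖]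
    have hr2 : ‖(x : ℂ)‖ < r := by linarith [le_max_right R ‖(x : ℂ)‖]
    have hsp : sphere (0 : ℂ) r ⊆ X := fun z hz =>
      hX z (by rw [mem_sphere, dist_zero_right] at hz; linarith)
    obtain ⟨δ, hδ, hcl⟩ := close_pt (by linarith) (hF.mono hsp) (fun z hz h0 => by
      have := hi (hsp hz) x.2 h0
      rw [mem_sphere, dist_zero_right, this] at hz
      linarith) (hk x r hr1 hr2)
    have h1 : ∀ᶠ y : X in 𝓝 x, dist (F y) (F x) < δ := by
      have h2 : ContinuousAt (fun y : X => F y) x :=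
        (continuousOn_iff_continuous_domRestrict.1 hF).continuousAt
      exact h2 (ball_mem_nhds _ hδ)
    have h2 : ∀ᶠ y : X in 𝓝 x, ‖(y : ℂ)‖ < r :=
      (continuous_norm.comp continuous_subtype_val).continuousAt.eventually_lt
        continuousAt_const hr2
    filter_upwards [h1, h2] with y hy1 hy2
    exact (hk y r hr1 hy2).unique (hcl _ hy1)
  have : PreconnectedSpace X := Subtype.preconnectedSpace hc
  by_cases hne : Nonempty X
  · obtain ⟨x0⟩ := hne
    refine ⟨k x0, fun x hx r h1 h2 => ?_⟩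
    rw [hloc.apply_eq_of_preconnectedSpace x0 ⟨x, hx⟩]
    exact hk ⟨x, hx⟩ r h1 h2
  · exact ⟨0, fun x hx => absurd ⟨⟨x, hx⟩⟩ hne⟩

theorem V_const (hR : 0 < R) (hX : ∀ z, R < ‖z‖ → z ∈ X)
    (hF : ContinuousOn F X) (hi : InjOn F X) :
    ∃ m : ℤ, ∀ x, R < ‖x‖ → ∀ r, R < r → r < ‖x‖ → Wind (fun z => F z - F x) 0 r m := by
  have hex := fun x : {z : ℂ | R < ‖z‖} => V_exists hR hX hF hi x.2
  choose k hk using hex
  have hloc : IsLocallyConstant k := by
    rw [IsLocallyConstant.iff_eventually_eq]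
    intro x
    have hx : R < ‖(x : ℂ)‖ := x.2
    set r := (R + ‖(x : ℂ)‖) / 2 with hr
    have hr1 : R < r := by linarith
    have hr2 : r < ‖(x : ℂ)‖ := by linarith
    have hsp : sphere (0 : ℂ) r ⊆ X := fun z hz =>
      hX z (by rw [mem_sphere, dist_zero_right] at hz; linarith)
    obtain ⟨δ, hδ, hcl⟩ := close_pt (by linarith) (hF.mono hsp) (fun z hz h0 => by
      have := hi (hsp hz) (hX _ x.2) h0
      rw [mem_sphere, dist_zero_right, this] at hz
      linarith) (hk x r hr1 hr2)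
    have h1 : ∀ᶠ y : {z : ℂ | R < ‖z‖} in 𝓝 x, dist (F y) (F x) < δ := by
      have h2 : ContinuousAt (fun y : {z : ℂ | R < ‖z‖} => F y) x :=
        (continuousOn_iff_continuous_domRestrict.1
          (hF.mono (fun z (hz : R < ‖z‖) => hX z hz))).continuousAt
      exact h2 (ball_mem_nhds _ hδ)
    have h2 : ∀ᶠ y : {z : ℂ | R < ‖z‖} in 𝓝 x, r < ‖(y : ℂ)‖ :=
      continuousAt_const.eventually_lt
        (continuous_norm.comp continuous_subtype_val).continuousAt hr2
    filter_upwards [h1, h2] with y hy1 hy2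
    exact (hk y r hr1 hy2).unique (hcl _ hy1)
  have : PreconnectedSpace {z : ℂ | R < ‖z‖} := Subtype.preconnectedSpace (preconnected_outside hR)
  have hx0 : R < ‖((R + 1 : ℝ) : ℂ)‖ := by
    rw [norm_real, Real.norm_of_nonneg (by linarith)]; linarith
  refine ⟨k ⟨_, hx0⟩, fun x hx r h1 h2 => ?_⟩
  rw [hloc.apply_eq_of_preconnectedSpace ⟨_, hx0⟩ ⟨x, hx⟩]
  exact hk ⟨x, hx⟩ r h1 h2

/-- **Rigidity.** -/
theorem rigid_of_pos (hR : 0 < R) (hX : ∀ z, R < ‖z‖ → z ∈ X) (hcl : IsClosed X)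
    (hc : IsPreconnected X) {f : X → ℂ} (hf : Continuous f) (hi : Function.Injective f) :
    IsEmbedding f := by
  classical
  set F : ℂ → ℂ := fun z => if h : z ∈ X then f ⟨z, h⟩ else 0 with hFdef
  have hFf : ∀ x : X, F x = f x := fun x => by simp [hFdef]
  have hF : ContinuousOn F X := by
    rw [continuousOn_iff_continuous_domRestrict]
    have : X.domRestrict F = f := funext fun x => hFf x
    rw [this]; exact hf
  have hFi : InjOn F X := fun x hx y hy hxy => by
    have h1 : f ⟨x, hx⟩ = f ⟨y, hy⟩ := by rw [← hFf, ← hFf]; exact hxy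
    exact congrArg Subtype.val (hi h1)
  obtain ⟨m, hm⟩ := W_const hR hX hc hF hFi
  obtain ⟨n, hn⟩ := V_const hR hX hF hFi
  have hmn : n ≠ m := by
    have e1 : ‖((R + 2 : ℝ) : ℂ)‖ = R + 2 := by
      rw [norm_real, Real.norm_of_nonneg (by linarith)]
    refine jump (a := R) (b := R + 4) (x0 := ((R + 2 : ℝ) : ℂ)) (r := R + 1) (s := R + 3) hR.le
      (hF.mono fun z hz => hX z hz.1) (hFi.mono fun z hz => hX z hz.1) (by linarith)
      (by rw [e1]; linarith) (by rw [e1]; linarith) (by linarith)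
      (hn _ (by rw [e1]; linarith) _ (by linarith) (by rw [e1]; linarith))
      (hm _ (hX _ (by rw [e1]; linarith)) _ (by linarith) (by rw [e1]; linarith))
  refine ⟨isInducing_iff_nhds.2 fun x => le_antisymm (hf.tendsto x).le_comap ?_, hi⟩
  rw [Filter.le_iff_ultrafilter]
  intro g hg
  have hgt : Tendsto f g (𝓝 (f x)) := tendsto_iff_comap.2 hg
  -- the points outside a big circle are not in `g`
  set r := max R ‖(x : ℂ)‖ + 1 with hr
  have hr1 : R < r := by linarith [le_max_left R ‖(x : ℂ)‖]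
  have hr2 : ‖(x : ℂ)‖ < r := by linarith [le_max_right R ‖(x : ℂ)‖]
  have hsp : sphere (0 : ℂ) r ⊆ X := fun z hz =>
    hX z (by rw [mem_sphere, dist_zero_right] at hz; linarith)
  obtain ⟨δ, hδ, hcl'⟩ := close_pt (by linarith) (hF.mono hsp) (fun z hz h0 => by
    have := hFi (hsp hz) x.2 h0
    rw [mem_sphere, dist_zero_right, this] at hz
    linarith) (hm x x.2 r hr1 hr2)
  have hbd : {y : X | ‖(y : ℂ)‖ ≤ r} ∈ (g : Filter X) := by
    by_contra hnot
    have h1 : {y : X | ‖(y : ℂ)‖ ≤ r}ᶜ ∈ (g : Filter X) := Ultrafilter.compl_mem_iff_notMem.2 hnot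
    have h2 : ∀ᶠ y : X in g, dist (f y) (f x) < δ := hgt (ball_mem_nhds _ hδ)
    obtain ⟨y, hy1, hy2⟩ := (h2.and h1).exists
    have hy3 : r < ‖(y : ℂ)‖ := not_le.1 hy2
    have h3 := hcl' (F y) (by rw [hFf, hFf]; exact hy1)
    exact hmn ((hn y (by linarith) r hr1 hy3).unique h3)
  have hK : IsCompact {y : X | ‖(y : ℂ)‖ ≤ r} := by
    have h1 : IsCompact (X ∩ closedBall (0 : ℂ) r) := (isCompact_closedBall _ _).inter_left hcl
    have h2 : {y : X | ‖(y : ℂ)‖ ≤ r} = Subtype.val ⁻¹' (X ∩ closedBall (0 : ℂ) r) := by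
      ext y; simp
    rw [h2]
    exact hcl.isClosedEmbedding_subtypeVal.isCompact_preimage h1
  obtain ⟨y, -, hy⟩ := hK.ultrafilter_le_nhds g (le_principal_iff.2 hbd)
  have h1 : Tendsto f g (𝓝 (f y)) := (hf.tendsto y).mono_left hy
  have h2 : f y = f x := tendsto_nhds_unique h1 hgt
  rw [← hi h2]
  exact hy

/-- A closed connected set in the plane whose complement is bounded is injectively rigid. -/
theorem rigid (hb : Bornology.IsBounded Xᶜ) (hcl : IsClosed X) (hc : IsPreconnected X) {f : X → ℂ}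
    (hf : Continuous f) (hi : Function.Injective f) : IsEmbedding f := by
  obtain ⟨R, hR⟩ := hb.subset_closedBall 0
  refine rigid_of_pos (R := max R 1) (lt_of_lt_of_le one_pos (le_max_right _ _))
    (fun z hz => ?_) hcl hc hf hi
  by_contra h
  have h1 := hR h
  rw [mem_closedBall, dist_zero_right] at h1
  linarith [le_max_left R 1]

end

end Pool.Agent.Q171.IR
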