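import Mathlib
import Pool.Agent.Q171.IR.Finger
import Pool.Agent.Q171.IR.Rigid

/-! # The three ways of not being injectively rigid -/

set_option autoImplicit false

noncomputable section

namespace Pool.Agent.Q171.IR

open Set Filter Topology Metric

/-- there is a continuous injection which is not an embedding -/
def NotRigid (X : Set ℂ) : Prop :=
  ∃ f : X → ℂ, Continuous f ∧ Function.Injective f ∧ ¬ IsEmbedding f

/-! ### The end at a point of `closure X \ X` -/

/-- punctured balls -/
def PB (e : ℂ) (k : ℕ) : Set ℂ := ball e (1 / (k + 1)) \ {e}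

theorem PB_open (e : ℂ) (k : ℕ) : IsOpen (PB e k) := isOpen_ball.sdiff isClosed_singleton

theorem PB_preconnected (e : ℂ) (k : ℕ) : IsPreconnected (PB e k) := by
  have hk : (0 : ℝ) < 1 / (k + 1) := by positivity
  have h1 : PB e k = (fun w => e + Complex.exp w) '' {w | w.re < Real.log (1 / (k + 1))} := by
    ext z
    constructor
    · rintro ⟨hz, hz2⟩
      have hne : z - e ≠ 0 := sub_ne_zero.2 hz2
      rw [mem_ball, dist_eq_norm] at hz
      refine ⟨Complex.log (z - e), ?_, ?_⟩
      · show (Complex.log (z - e)).re < _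
        rw [Complex.log_re]
        exact Real.log_lt_log (norm_pos_iff.2 hne) hz
      · show e + Complex.exp (Complex.log (z - e)) = z
        rw [Complex.exp_log hne]; ring
    · rintro ⟨w, hw, rfl⟩
      have hw' : w.re < Real.log (1 / (k + 1)) := hw
      refine ⟨?_, ?_⟩
      · rw [mem_ball, dist_eq_norm]
        show ‖e + Complex.exp w - e‖ < _
        rw [add_sub_cancel_left, Complex.norm_exp]
        calc Real.exp w.re < Real.exp (Real.log (1 / (k + 1))) := Real.exp_lt_exp.2 hw'
          _ = _ := Real.exp_log hk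
      · intro h0
        have h1 : e + Complex.exp w = e := h0
        have h2 : Complex.exp w = 0 := add_eq_left.1 h1
        exact Complex.exp_ne_zero w h2
  rw [h1]
  exact ((convex_halfSpace_re_lt _).isPreconnected).image _
    (continuous_const.add Complex.continuous_exp).continuousOn

theorem caseA {X V : Set ℂ} {n e : ℂ} (Vo : IsOpen V) (Vc : IsPreconnected V)
    (hVX : V ⊆ (closure X)ᶜ) (nX : n ∈ X) (nV : n ∈ closure V) (heX : e ∈ closure X)
    (heX' : e ∉ X) (heV : e ∈ closure V) : NotRigid X := by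
  have hpos : ∀ k : ℕ, (0 : ℝ) < 1 / (k + 1) := fun k => by positivity
  have F : Finger X V n (PB e) := by
    refine ⟨Vo, Vc, fun x hx h => hVX hx (subset_closure h), nX, nV, PB_open e,
      PB_preconnected e, ?_, ?_, ?_, ?_⟩
    · intro i j hij
      refine Set.sdiff_subset_sdiff_left (ball_subset_ball ?_)
      have : (i : ℝ) ≤ j := by exact_mod_cast hij
      gcongr
    · intro k
      obtain ⟨x, hx, hxe⟩ := Metric.mem_closure_iff.1 heX _ (hpos k)
      exact ⟨x, ⟨by rw [mem_ball, dist_comm]; exact hxe, fun h => heX' (by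
        rw [mem_singleton_iff] at h; rwa [← h])⟩, hx⟩
    · intro k
      obtain ⟨x, hx, hxe⟩ := Metric.mem_closure_iff.1 heV _ (hpos k)
      exact ⟨x, ⟨by rw [mem_ball, dist_comm]; exact hxe, fun h => hVX hx (by
        rw [mem_singleton_iff] at h; rwa [h])⟩, hx⟩
    · intro x hx
      have hxe : x ≠ e := by
        rintro rfl
        rcases hx with h | h | h
        · exact heX' h
        · exact hVX h heX
        · exact h.2 rfl
      have hd : 0 < dist x e / 2 := by
        have := dist_pos.2 hxe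
        positivity
      obtain ⟨m, hm⟩ := exists_nat_one_div_lt hd
      refine ⟨m, ball x (dist x e / 2), ball_mem_nhds x hd, ?_⟩
      rw [disjoint_left]
      rintro y hy ⟨hy2, -⟩
      rw [mem_ball] at hy hy2
      have := dist_triangle x y e
      rw [dist_comm x y] at this
      linarith
  exact F.not_rigid

/-! ### The end at infinity -/

theorem caseB {X V : Set ℂ} {n : ℂ} (Vo : IsOpen V) (Vc : IsPreconnected V)
    (hVX : V ⊆ (closure X)ᶜ) (nX : n ∈ X) (nV : n ∈ closure V)
    (hX : ¬ Bornology.IsBounded X) (hV : ¬ Bornology.IsBounded V) : NotRigid X := by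
  have hunb : ∀ S : Set ℂ, ¬ Bornology.IsBounded S → ∀ r : ℝ, ∃ x ∈ S, r < ‖x‖ := by
    intro S hS r
    by_contra hcon
    push Not at hcon
    refine hS (isBounded_closedBall (x := (0 : ℂ)) (r := r) |>.subset fun x hx => ?_)
    rw [mem_closedBall, dist_zero_right]
    exact hcon x hx
  have F : Finger X V n (fun k : ℕ => {z : ℂ | (k : ℝ) + 1 < ‖z‖}) := by
    refine ⟨Vo, Vc, fun x hx h => hVX hx (subset_closure h), nX, nV, fun k =>
      isOpen_lt continuous_const continuous_norm, fun k => preconnected_outside (by positivity),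
      ?_, ?_, ?_, ?_⟩
    · intro i j hij z hz
      have h1 : (j : ℝ) + 1 < ‖z‖ := hz
      have : (i : ℝ) ≤ j := by exact_mod_cast hij
      show (i : ℝ) + 1 < ‖z‖
      linarith
    · intro k
      obtain ⟨x, hx, hx2⟩ := hunb X hX (k + 1)
      exact ⟨x, hx2, hx⟩
    · intro k
      obtain ⟨x, hx, hx2⟩ := hunb V hV (k + 1)
      exact ⟨x, hx2, hx⟩
    · intro x _
      obtain ⟨m, hm⟩ := exists_nat_gt ‖x‖
      refine ⟨m, {z | ‖z‖ < m}, (isOpen_lt continuous_norm continuous_const).mem_nhds hm, ?_⟩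
      rw [disjoint_left]
      intro y hy hy2
      have h1 : ‖y‖ < m := hy
      have h2 : (m : ℝ) + 1 < ‖y‖ := hy2
      linarith
  exact F.not_rigid

/-! ### Disconnected closed sets with bounded complement -/

theorem caseC_aux {X A B : Set ℂ} {p : ℂ} (hp : p ∉ X) (hAB : X = A ∪ B) (hA : IsClosed A)
    (hB : IsClosed B) (hd : Disjoint A B) (hBn : B.Nonempty) {R : ℝ}
    (hR : ∀ z, R < ‖z‖ → z ∈ A) : NotRigid X := by
  classical
  have hBc : IsCompact B := by
    refine Metric.isCompact_of_isClosed_isBounded hB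
      ((isBounded_closedBall (x := (0 : ℂ)) (r := R)).subset fun z hz => ?_)
    rw [mem_closedBall, dist_zero_right]
    by_contra h
    exact (disjoint_left.1 hd) (hR z (not_le.1 h)) hz
  obtain ⟨b0, hb0, hmax⟩ := hBc.exists_isMaxOn hBn
    (f := fun z => ‖z - p‖) (by fun_prop)
  set M := ‖b0 - p‖ with hM
  have hpX : ∀ z ∈ X, z - p ≠ 0 := fun z hz h0 => hp (by rwa [← sub_eq_zero.1 h0])
  have hBX : B ⊆ X := by rw [hAB]; exact subset_union_right
  have hAX : A ⊆ X := by rw [hAB]; exact subset_union_left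
  have hM0 : 0 < M := norm_pos_iff.2 (hpX b0 (hBX hb0))
  set F : ℂ → ℂ := fun z => if z ∈ B then (z - p) / M else
    (z - p) / ‖z - p‖ * (1 + 1 / ‖z - p‖) with hF
  have hFB : ∀ z ∈ B, F z = (z - p) / M := fun z hz => by simp only [hF, hz, if_true]
  have hFA : ∀ z ∈ A, F z = (z - p) / ‖z - p‖ * (1 + 1 / ‖z - p‖) := fun z hz => by
    have : z ∉ B := (disjoint_left.1 hd) hz
    simp only [hF, this, if_false]
  have hnB : ∀ z ∈ B, ‖F z‖ ≤ 1 := fun z hz => by
    rw [hFB z hz, norm_div, Complex.norm_real, Real.norm_of_nonneg hM0.le, div_le_one hM0]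
    exact hmax hz
  have hnA : ∀ z ∈ A, ‖F z‖ = 1 + 1 / ‖z - p‖ := fun z hz => by
    have h1 : 0 < ‖z - p‖ := norm_pos_iff.2 (hpX z (hAX hz))
    have h2 : (1 + 1 / (‖z - p‖ : ℂ)) = ((1 + 1 / ‖z - p‖ : ℝ) : ℂ) := by push_cast; ring
    rw [hFA z hz, norm_mul, norm_div, Complex.norm_real, norm_norm, div_self h1.ne', one_mul, h2,
      Complex.norm_real, Real.norm_of_nonneg (by positivity)]
  have hFAc : ContinuousOn F A := by
    refine ContinuousOn.congr (f := fun z => (z - p) / ‖z - p‖ * (1 + 1 / ‖z - p‖)) ?_ hFA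
    have h1 : ∀ z ∈ A, ((‖z - p‖ : ℝ) : ℂ) ≠ 0 := fun z hz => by
      exact_mod_cast (norm_pos_iff.2 (hpX z (hAX hz))).ne'
    have h2 : ContinuousOn (fun z : ℂ => ((‖z - p‖ : ℝ) : ℂ)) A := by fun_prop
    exact (ContinuousOn.div (by fun_prop) h2 h1).mul
      (continuousOn_const.add (continuousOn_const.div h2 h1))
  have hFBc : ContinuousOn F B := by
    refine ContinuousOn.congr (f := fun z => (z - p) / M) (by fun_prop) hFB
  have hFc : ContinuousOn F X := by
    intro z hz
    have h6 : ∀ {S : Set ℂ}, IsClosed S → ContinuousOn F S → ContinuousWithinAt F S z := by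
      intro S hS hc
      by_cases h : z ∈ S
      · exact hc z h
      · exact continuousWithinAt_of_notMem_closure (by rwa [hS.closure_eq])
    rw [hAB]
    exact (h6 hA hFAc).union (h6 hB hFBc)
  have hinjAB : ∀ x ∈ A, ∀ y ∈ B, F x ≠ F y := fun x hx y hy h => by
    have h1 := hnA x hx
    have h2 := hnB y hy
    rw [h] at h1
    have h3 : 0 < ‖x - p‖ := norm_pos_iff.2 (hpX x (hAX hx))
    have h4 : 0 < 1 / ‖x - p‖ := by positivity
    linarith
  have hinj : InjOn F X := by
    intro x hx y hy hxy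
    rw [hAB] at hx hy
    rcases hx with hx | hx <;> rcases hy with hy | hy
    · have h1 : 0 < ‖x - p‖ := norm_pos_iff.2 (hpX x (hAX hx))
      have h2 : 0 < ‖y - p‖ := norm_pos_iff.2 (hpX y (hAX hy))
      have h3 : ‖x - p‖ = ‖y - p‖ := by
        have h4 := hnA x hx
        rw [hxy, hnA y hy] at h4
        have h5 : 1 / ‖y - p‖ = 1 / ‖x - p‖ := by linarith
        rw [div_eq_div_iff h2.ne' h1.ne'] at h5
        linarith
      rw [hFA x hx, hFA y hy, h3] at hxy
      have h4 : (1 + 1 / (‖y - p‖ : ℂ)) ≠ 0 := by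
        have h5 : (1 + 1 / (‖y - p‖ : ℂ)) = ((1 + 1 / ‖y - p‖ : ℝ) : ℂ) := by push_cast; ring
        rw [h5]
        have h6 : (0 : ℝ) < 1 + 1 / ‖y - p‖ := by positivity
        exact_mod_cast h6.ne'
      have h5 := mul_right_cancel₀ h4 hxy
      have h6 : ((‖y - p‖ : ℝ) : ℂ) ≠ 0 := by exact_mod_cast h2.ne'
      rw [div_left_inj' h6] at h5
      linear_combination h5
    · exact absurd hxy (hinjAB x hx y hy)
    · exact absurd hxy.symm (hinjAB y hy x hx)
    · rw [hFB x hx, hFB y hy] at hxy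
      have h6 : (M : ℂ) ≠ 0 := by exact_mod_cast hM0.ne'
      rw [div_left_inj' h6] at hxy
      linear_combination hxy
  refine ⟨fun z => F z, continuousOn_iff_continuous_domRestrict.1 hFc, fun x y hxy =>
    Subtype.ext (hinj x.2 y.2 hxy), fun hemb => ?_⟩
  -- the sequence going to infinity
  set u : ℂ := (b0 - p) / M with hu
  have hun : ‖u‖ = 1 := by
    rw [hu, norm_div, Complex.norm_real, Real.norm_of_nonneg hM0.le, ← hM, div_self hM0.ne']
  set K : ℝ := |R| + ‖p‖ + 1 with hK
  have hK0 : 0 < K := by positivity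
  set y : ℕ → ℂ := fun k => p + ((K + k : ℝ) : ℂ) * u with hy
  have hyp : ∀ k, ‖y k - p‖ = K + k := fun k => by
    rw [hy]
    simp only [add_sub_cancel_left]
    rw [norm_mul, hun, mul_one, Complex.norm_real, Real.norm_of_nonneg (by positivity)]
  have hyR : ∀ k, R < ‖y k‖ := fun k => by
    have h1 := norm_sub_le (y k) p
    rw [hyp k] at h1
    have h2 := le_abs_self R
    have h3 : (0 : ℝ) ≤ k := by positivity
    linarith
  have hyA : ∀ k, y k ∈ A := fun k => hR _ (hyR k)
  have hFy : ∀ k, F (y k) = u * (1 + 1 / ((K + k : ℝ) : ℂ)) := fun k => by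
    rw [hFA _ (hyA k), hyp k]
    have h1 : y k - p = ((K + k : ℝ) : ℂ) * u := by simp only [hy, add_sub_cancel_left]
    have h2 : ((K + k : ℝ) : ℂ) ≠ 0 := by
      have : 0 < K + k := by positivity
      exact_mod_cast this.ne'
    rw [h1, mul_div_cancel_left₀ _ h2]
  have hlim : Tendsto (fun k => F (y k)) atTop (𝓝 (F b0)) := by
    have h1 : Tendsto (fun k : ℕ => K + (k : ℝ)) atTop atTop :=
      tendsto_atTop_add_const_left _ _ tendsto_natCast_atTop_atTop
    have h2 : Tendsto (fun k : ℕ => ((K + (k : ℝ))⁻¹ : ℝ)) atTop (𝓝 0) :=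
      tendsto_inv_atTop_zero.comp h1
    have h3 : Tendsto (fun k : ℕ => (((K + (k : ℝ))⁻¹ : ℝ) : ℂ)) atTop (𝓝 ((0 : ℝ) : ℂ)) :=
      (Complex.continuous_ofReal.tendsto _).comp h2
    have h4 : Tendsto (fun k : ℕ => u * (1 + (((K + (k : ℝ))⁻¹ : ℝ) : ℂ))) atTop
        (𝓝 (u * (1 + ((0 : ℝ) : ℂ)))) := (tendsto_const_nhds.add h3).const_mul u
    have h5 : F b0 = u * (1 + ((0 : ℝ) : ℂ)) := by rw [hFB b0 hb0]; simp [hu]
    rw [h5]
    refine h4.congr (fun k => ?_)
    rw [hFy k]
    push_cast
    rw [one_div]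
  have h1 : Tendsto (fun k => (⟨y k, hAX (hyA k)⟩ : X)) atTop (𝓝 ⟨b0, hBX hb0⟩) := by
    rw [hemb.isInducing.tendsto_nhds_iff]
    exact hlim
  have h2 : Tendsto y atTop (𝓝 b0) :=
    (continuous_subtype_val.tendsto (⟨b0, hBX hb0⟩ : X)).comp h1
  have h3 : b0 ∈ A := hA.mem_of_tendsto h2 (Eventually.of_forall hyA)
  exact (disjoint_left.1 hd) h3 hb0

theorem caseC {X : Set ℂ} (hX : IsClosed X) (hb : Bornology.IsBounded Xᶜ) (hne : Xᶜ.Nonempty)
    (hc : ¬ IsPreconnected X) : NotRigid X := by
  obtain ⟨p, hp⟩ := hne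
  rw [isPreconnected_iff_subset_of_fully_disjoint_closed hX] at hc
  push Not at hc
  obtain ⟨u, v, hu, hv, huv, hd, hXu, hXv⟩ := hc
  obtain ⟨R, hR⟩ := hb.subset_closedBall 0
  set R' := max R 1 with hR'
  have hR'0 : 0 < R' := lt_of_lt_of_le one_pos (le_max_right _ _)
  have hout : {z : ℂ | R' < ‖z‖} ⊆ X := by
    intro z hz
    have hz' : R' < ‖z‖ := hz
    by_contra h
    have h1 := hR h
    rw [mem_closedBall, dist_zero_right] at h1
    linarith [le_max_left R 1]
  have hpre := preconnected_outside hR'0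
  have hA : IsClosed (X ∩ u) := hX.inter hu
  have hB : IsClosed (X ∩ v) := hX.inter hv
  have hAB : X = (X ∩ u) ∪ (X ∩ v) := by
    rw [← inter_union_distrib_left, inter_eq_left.2 huv]
  have hdd : Disjoint (X ∩ u) (X ∩ v) := hd.mono inter_subset_right inter_subset_right
  have hAn : (X ∩ u).Nonempty := by
    by_contra h
    rw [not_nonempty_iff_eq_empty] at h
    apply hXv
    rw [h, empty_union] at hAB
    rw [hAB]; exact inter_subset_right
  have hBn : (X ∩ v).Nonempty := by
    by_contra h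
    rw [not_nonempty_iff_eq_empty] at h
    apply hXu
    rw [h, union_empty] at hAB
    rw [hAB]; exact inter_subset_right
  have hcl := isPreconnected_iff_subset_of_disjoint_closed.1 hpre u v hu hv (hout.trans huv)
    (by rw [hd.inter_eq, inter_empty])
  rcases hcl with h | h
  · exact caseC_aux hp hAB hA hB hdd hBn (fun z hz => ⟨hout hz, h hz⟩)
  · rw [union_comm] at hAB
    exact caseC_aux hp hAB hB hA hdd.symm hAn (fun z hz => ⟨hout hz, h hz⟩)

end Pool.Agent.Q171.IR
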