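import Mathlib
import Pool.Agent.Q171.IR.Cases

/-! # Classification of the injectively rigid nonseparating planar sets -/

set_option autoImplicit false

noncomputable section

namespace Pool.Agent.Q171.IR

open Set Filter Topology Metric

theorem F_closed {X : Set ℂ} [LocallyCompactSpace X] : IsClosed (closure X \ X) := by
  rw [← isOpen_compl_iff, isOpen_iff_mem_nhds]
  intro x hx
  by_cases hxX : x ∈ X
  · obtain ⟨K, hK, hKx⟩ := exists_compact_mem_nhds (⟨x, hxX⟩ : X)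
    obtain ⟨U, hU, hUK⟩ := (mem_nhds_subtype X ⟨x, hxX⟩ K).1 hKx
    have hKc : IsClosed (Subtype.val '' K : Set ℂ) := (hK.image continuous_subtype_val).isClosed
    refine mem_of_superset (interior_mem_nhds.2 hU) ?_
    rintro y hy ⟨hy1, hy2⟩
    have h1 := isOpen_interior.inter_closure (s := interior U) (t := X) ⟨hy, hy1⟩
    have h2 : interior U ∩ X ⊆ Subtype.val '' K := by
      rintro z ⟨hz1, hz2⟩
      exact ⟨⟨z, hz2⟩, hUK (show (z : ℂ) ∈ U from interior_subset hz1), rfl⟩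
    obtain ⟨z, -, hz⟩ := (closure_minimal h2 hKc) h1
    exact hy2 (hz ▸ z.2)
  · have h1 : x ∉ closure X := fun h => hx ⟨h, hxX⟩
    refine mem_of_superset (isClosed_closure.isOpen_compl.mem_nhds h1) ?_
    rintro y hy ⟨hy1, -⟩
    exact hy hy1

theorem sub_of_pre {S V : Set ℂ} (hS : IsPreconnected S) (hV : IsOpen V)
    (h : ∀ z ∈ S, z ∈ closure V → z ∈ V) (hne : (S ∩ V).Nonempty) : S ⊆ V := by
  have hh : S ⊆ V ∨ S ⊆ (closure V)ᶜ := by
    refine isPreconnected_iff_subset_of_disjoint.1 hS V (closure V)ᶜ hV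
      isClosed_closure.isOpen_compl (fun z hz => ?_) ?_
    · by_cases h2 : z ∈ closure V
      · exact Or.inl (h z hz h2)
      · exact Or.inr h2
    · rw [eq_empty_iff_forall_notMem]
      rintro z ⟨-, h1, h2⟩
      exact h2 (subset_closure h1)
  rcases hh with h1 | h1
  · exact h1
  · obtain ⟨z, hz1, hz2⟩ := hne
    exact absurd (subset_closure hz2) (h1 hz1)

/-- a complementary domain of the closure which touches the set -/
theorem pick {X : Set ℂ} (hF : IsClosed (closure X \ X)) (hno : ¬ IsOpen X) :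
    ∃ V : Set ℂ, ∃ n ∈ X, IsOpen V ∧ IsPreconnected V ∧ V ⊆ (closure X)ᶜ ∧
      (∀ z, z ∉ closure X → z ∈ closure V → z ∈ V) ∧ V.Nonempty ∧ n ∈ closure V := by
  rw [isOpen_iff_mem_nhds] at hno
  push Not at hno
  obtain ⟨n0, hn0, hn0'⟩ := hno
  have h1 : (closure X \ X)ᶜ ∈ 𝓝 n0 := hF.isOpen_compl.mem_nhds (fun h => h.2 hn0)
  obtain ⟨δ, hδ, hδF⟩ := Metric.mem_nhds_iff.1 h1
  have h2 : ¬ ball n0 δ ⊆ X := fun h => hn0' (mem_of_superset (ball_mem_nhds _ hδ) h)
  obtain ⟨v, hv, hvX⟩ := Set.not_subset.1 h2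
  have hvc : v ∉ closure X := fun h => hδF hv ⟨h, hvX⟩
  set V := connectedComponentIn (closure X)ᶜ v with hV
  have hVo : IsOpen V := isClosed_closure.isOpen_compl.connectedComponentIn
  have hVs : V ⊆ (closure X)ᶜ := connectedComponentIn_subset _ _
  have hVp : IsPreconnected V := isPreconnected_connectedComponentIn
  have hvV : v ∈ V := mem_connectedComponentIn hvc
  have hVm : ∀ z, z ∉ closure X → z ∈ closure V → z ∈ V := by
    intro z hz hzV
    obtain ⟨ε, hε, hεX⟩ := Metric.mem_nhds_iff.1 (isClosed_closure.isOpen_compl.mem_nhds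
      (show z ∈ (closure X)ᶜ from hz))
    obtain ⟨w, hw, hwz⟩ := Metric.mem_closure_iff.1 hzV ε hε
    have hwb : w ∈ ball z ε := by rwa [mem_ball, dist_comm]
    have h3 : IsPreconnected (V ∪ ball z ε) :=
      IsPreconnected.union w hw hwb hVp (convex_ball z ε).isPreconnected
    exact h3.subset_connectedComponentIn (Or.inl hvV) (union_subset hVs hεX)
      (Or.inr (mem_ball_self hε))
  by_cases hex : ∃ n ∈ ball n0 δ, n ∈ closure V ∧ n ∉ V
  · obtain ⟨n, hn1, hn2, hn3⟩ := hex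
    have hn4 : n ∈ closure X := by
      by_contra h
      exact hn3 (hVm n h hn2)
    have hn5 : n ∈ X := by
      by_contra h
      exact hδF hn1 ⟨hn4, h⟩
    exact ⟨V, n, hn5, hVo, hVp, hVs, hVm, ⟨v, hvV⟩, hn2⟩
  · push Not at hex
    have h3 := sub_of_pre (convex_ball n0 δ).isPreconnected hVo hex ⟨v, hv, hvV⟩
    exact absurd (subset_closure hn0) (hVs (h3 (mem_ball_self hδ)))

theorem planar {X : Set ℂ} [LocallyCompactSpace X] (hc : IsPreconnected Xᶜ)
    (hnc : ¬ IsCompact X) (hno : ¬ IsOpen X) (hr : ¬ NotRigid X) :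
    IsClosed X ∧ IsPreconnected X ∧ Bornology.IsBounded Xᶜ := by
  obtain ⟨V, n, hn, hVo, hVp, hVs, hVm, hVn, hnV⟩ := pick F_closed hno
  have hVX : V ⊆ Xᶜ := fun z hz h => hVs hz (subset_closure h)
  have hFV : ∀ e, e ∈ closure X → e ∉ X → e ∉ closure V := fun e h1 h2 h3 =>
    hr (caseA hVo hVp hVs hn hnV h1 h2 h3)
  have h1 : Xᶜ ⊆ V := by
    refine sub_of_pre hc hVo (fun z hz hzV => ?_) ?_
    · exact hVm z (fun h => hFV z h hz hzV) hzV
    · obtain ⟨v, hv⟩ := hVn
      exact ⟨v, hVX hv, hv⟩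
  have hcl : IsClosed X := by
    refine isClosed_of_closure_subset (fun z hz => ?_)
    by_contra h
    exact hVs (h1 h) hz
  have hXb : ¬ Bornology.IsBounded X := fun h => hnc (Metric.isCompact_of_isClosed_isBounded hcl h)
  have hVb : Bornology.IsBounded V := by
    by_contra h
    exact hr (caseB hVo hVp hVs hn hnV hXb h)
  have hb : Bornology.IsBounded Xᶜ := hVb.subset h1
  refine ⟨hcl, ?_, hb⟩
  by_contra h
  refine hr (caseC hcl hb ?_ h)
  obtain ⟨v, hv⟩ := hVn
  exact ⟨v, hVX hv⟩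

theorem spherical {X : Set ℂ} [LocallyCompactSpace X]
    (hc : IsPreconnected (((↑) : ℂ → OnePoint ℂ) '' X)ᶜ)
    (hnc : ¬ IsCompact X) (hno : ¬ IsOpen X) : NotRigid X := by
  by_contra hr
  obtain ⟨V, n, hn, hVo, hVp, hVs, hVm, ⟨v, hv⟩, hnV⟩ := pick F_closed hno
  have hVX : V ⊆ Xᶜ := fun z hz h => hVs hz (subset_closure h)
  have hFV : ∀ e, e ∈ closure X → e ∉ X → e ∉ closure V := fun e h1 h2 h3 =>
    hr (caseA hVo hVp hVs hn hnV h1 h2 h3)
  have hkey : ∀ z, z ∉ X → z ∈ closure V → z ∈ V := fun z h1 h2 =>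
    hVm z (fun h => hFV z h h1 h2) h2
  have hinf : (OnePoint.infty : OnePoint ℂ) ∈ (((↑) : ℂ → OnePoint ℂ) '' X)ᶜ := by
    rintro ⟨z, -, hz⟩
    exact OnePoint.coe_ne_infty z hz
  have hvS : ((v : ℂ) : OnePoint ℂ) ∈ (((↑) : ℂ → OnePoint ℂ) '' X)ᶜ := by
    rintro ⟨z, hz, hzv⟩
    exact hVX hv (OnePoint.coe_injective hzv ▸ hz)
  by_cases hVb : Bornology.IsBounded V
  · have hcomp : IsCompact (closure V) := hVb.isCompact_closure
    have hh : (((↑) : ℂ → OnePoint ℂ) '' X)ᶜ ⊆ (((↑) : ℂ → OnePoint ℂ) '' V) ∨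
        (((↑) : ℂ → OnePoint ℂ) '' X)ᶜ ⊆ (((↑) : ℂ → OnePoint ℂ) '' (closure V))ᶜ := by
      refine isPreconnected_iff_subset_of_disjoint.1 hc (((↑) : ℂ → OnePoint ℂ) '' V)
        (((↑) : ℂ → OnePoint ℂ) '' (closure V))ᶜ (OnePoint.isOpen_image_coe.2 hVo)
        (OnePoint.isOpen_compl_image_coe.2 ⟨isClosed_closure, hcomp⟩) (fun s hs => ?_) ?_
      · by_cases h1 : s ∈ ((↑) : ℂ → OnePoint ℂ) '' (closure V)
        · obtain ⟨z, hz, rfl⟩ := h1
          exact Or.inl ⟨z, hkey z (fun h2 => hs ⟨z, h2, rfl⟩) hz, rfl⟩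
        · exact Or.inr h1
      · rw [eq_empty_iff_forall_notMem]
        rintro s ⟨-, ⟨z, hz, rfl⟩, h2⟩
        exact h2 ⟨z, subset_closure hz, rfl⟩
    rcases hh with h | h
    · obtain ⟨z, -, hz⟩ := h hinf
      exact OnePoint.coe_ne_infty z hz
    · exact h hvS ⟨v, subset_closure hv, rfl⟩
  · have hXb : Bornology.IsBounded X := by
      by_contra h
      exact hr (caseB hVo hVp hVs hn hnV h hVb)
    obtain ⟨R, hR⟩ := hXb.subset_closedBall 0
    have hRc : closure X ⊆ closedBall 0 R := closure_minimal hR isClosed_closedBall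
    set R' := max R 1 with hR'
    have hR'0 : 0 < R' := lt_of_lt_of_le one_pos (le_max_right _ _)
    have hout : ∀ z : ℂ, R' < ‖z‖ → z ∉ closure X := by
      intro z hz h
      have h1 := hRc h
      rw [mem_closedBall, dist_zero_right] at h1
      linarith [le_max_left R 1]
    have hoV : {z : ℂ | R' < ‖z‖} ⊆ V := by
      refine sub_of_pre (preconnected_outside hR'0) hVo (fun z hz hzV => hVm z (hout z hz) hzV) ?_
      by_contra hcon
      apply hVb
      refine isBounded_closedBall (x := (0 : ℂ)) (r := R') |>.subset fun z hz => ?_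
      rw [mem_closedBall, dist_zero_right]
      by_contra h
      exact hcon ⟨z, not_le.1 h, hz⟩
    have hVcc : IsCompact Vᶜ := by
      refine Metric.isCompact_of_isClosed_isBounded hVo.isClosed_compl
        ((isBounded_closedBall (x := (0 : ℂ)) (r := R')).subset fun z hz => ?_)
      rw [mem_closedBall, dist_zero_right]
      by_contra h
      exact hz (hoV (not_le.1 h))
    have hsub : (((↑) : ℂ → OnePoint ℂ) '' X)ᶜ ⊆ (((↑) : ℂ → OnePoint ℂ) '' Vᶜ)ᶜ := by
      have hh : (((↑) : ℂ → OnePoint ℂ) '' X)ᶜ ⊆ (((↑) : ℂ → OnePoint ℂ) '' Vᶜ)ᶜ ∨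
          (((↑) : ℂ → OnePoint ℂ) '' X)ᶜ ⊆ (((↑) : ℂ → OnePoint ℂ) '' (closure V)ᶜ) := by
        refine isPreconnected_iff_subset_of_disjoint.1 hc (((↑) : ℂ → OnePoint ℂ) '' Vᶜ)ᶜ
          (((↑) : ℂ → OnePoint ℂ) '' (closure V)ᶜ)
          (OnePoint.isOpen_compl_image_coe.2 ⟨hVo.isClosed_compl, hVcc⟩)
          (OnePoint.isOpen_image_coe.2 isClosed_closure.isOpen_compl) (fun s hs => ?_) ?_
        · by_cases h1 : s ∈ ((↑) : ℂ → OnePoint ℂ) '' Vᶜ
          · obtain ⟨z, hz, rfl⟩ := h1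
            refine Or.inr ⟨z, fun h2 => hz (hkey z (fun h3 => hs ⟨z, h3, rfl⟩) h2), rfl⟩
          · exact Or.inl h1
        · rw [eq_empty_iff_forall_notMem]
          rintro s ⟨-, h1, ⟨z, hz, rfl⟩⟩
          exact h1 ⟨z, fun h2 => hz (subset_closure h2), rfl⟩
      rcases hh with h | h
      · exact h
      · obtain ⟨z, -, hz⟩ := h hinf
        exact absurd hz (OnePoint.coe_ne_infty z)
    have h1 : Xᶜ ⊆ V := by
      intro z hz
      by_contra h
      exact hsub (show ((z : ℂ) : OnePoint ℂ) ∈ _ from fun ⟨w, hw, hwz⟩ =>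
        hz (OnePoint.coe_injective hwz ▸ hw)) ⟨z, h, rfl⟩
    have hcl : IsClosed X := by
      refine isClosed_of_closure_subset (fun z hz => ?_)
      by_contra h
      exact hVs (h1 h) hz
    exact hnc (Metric.isCompact_of_isClosed_isBounded hcl hXb)

end Pool.Agent.Q171.IR
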